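import Pool.Agent.U920.NF.Defs
import Pool.Agent.QTot.S1

set_option autoImplicit false
open scoped ContDiff Manifold Topology Matrix
open MeasureTheory Filter Set

namespace Pool.Agent.U920.NF

open Pool.Agent.QTot

/-! ### Smoothness -/

theorem riem_smooth {n : ℕ} {U : Set (Eu n)} (hU : IsOpen U) {G : Eu n → Mt n}
    (hG : ∀ i j, ContDiffOn ℝ ∞ (fun x => G x i j) U) (hd : ∀ x ∈ U, (G x).det ≠ 0)
    (i j k l : Fin n) : ContDiffOn ℝ ∞ (Riem G i j k l) U := by
  have h := S1.Gam_smooth235 hU hG hd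
  unfold Riem
  refine ContDiffOn.sum fun m _ => (hG i m).mul ?_
  refine ((S1.pd_smooth235 hU (h m j l) k).sub (S1.pd_smooth235 hU (h m j k) l)).add ?_
  exact ContDiffOn.sum fun p _ => ((h m k p).mul (h p j l)).sub ((h m l p).mul (h p j k))

theorem val_smooth {n : ℕ} {U : Set (Eu n)} (hU : IsOpen U) {G : Eu n → Mt n}
    (hG : ∀ i j, ContDiffOn ℝ ∞ (fun x => G x i j) U) (hd : ∀ x ∈ U, (G x).det ≠ 0)
    {k : ℕ} (T : NT k) : ∀ i : Fin k → Fin n, ContDiffOn ℝ ∞ (T.val G i) U := by
  induction T with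
  | metric => intro i; exact hG _ _
  | riem => intro i; exact riem_smooth hU hG hd _ _ _ _
  | nabla T ih =>
    intro i
    refine (S1.pd_smooth235 hU (ih _) _).sub ?_
    exact ContDiffOn.sum fun p _ => ContDiffOn.sum fun a _ =>
      (S1.Gam_smooth235 hU hG hd _ _ _).mul (ih _)
  | mul S T ihS ihT => intro i; exact (ihS _).mul (ihT _)
  | contr T ih =>
    intro i
    exact ContDiffOn.sum fun a _ => ContDiffOn.sum fun b _ =>
      (S1.inv_smooth235 hG hd a b).mul (ih _)
  | perm σ T ih => intro i; exact ih _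
  | add S T ihS ihT => intro i; exact (ihS _).add (ihT _)
  | smul c T ih => intro i; exact contDiffOn_const.mul (ih _)

/-! ### Locality -/

theorem pd_congr_ev {n : ℕ} {f g : Eu n → ℝ} {x : Eu n} (h : f =ᶠ[𝓝 x] g) (i : Fin n) :
    pd i f =ᶠ[𝓝 x] pd i g := by
  have h1 := eventually_eventually_nhds.2 h
  filter_upwards [h1] with y hy
  exact S1.pd_congr235 hy i

theorem gam_congr_ev {n : ℕ} {G H : Eu n → Mt n} {x : Eu n} (h : G =ᶠ[𝓝 x] H) (k i j : Fin n) :
    Gam G k i j =ᶠ[𝓝 x] Gam H k i j := by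
  have h1 : ∀ a b c, pd c (fun y => G y a b) =ᶠ[𝓝 x] pd c (fun y => H y a b) := fun a b c =>
    pd_congr_ev (h.mono fun y hy => by simp only [hy]) c
  have h2 := fun l => h1 j l i
  have h3 := fun l => h1 i l j
  have h4 := fun l => h1 i j l
  filter_upwards [h, eventually_all.2 h2, eventually_all.2 h3, eventually_all.2 h4] with y hy e2 e3 e4
  unfold Gam
  rw [hy]
  congr 1
  refine Finset.sum_congr rfl fun l _ => ?_
  rw [e2, e3, e4]

theorem riem_congr_ev {n : ℕ} {G H : Eu n → Mt n} {x : Eu n} (h : G =ᶠ[𝓝 x] H) (i j k l : Fin n) :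
    Riem G i j k l =ᶠ[𝓝 x] Riem H i j k l := by
  have h1 : ∀ a b c, Gam G a b c =ᶠ[𝓝 x] Gam H a b c := fun a b c => gam_congr_ev h a b c
  have h2 : ∀ d a b c, pd d (Gam G a b c) =ᶠ[𝓝 x] pd d (Gam H a b c) := fun d a b c =>
    pd_congr_ev (h1 a b c) d
  have h1' := eventually_all.2 fun a => eventually_all.2 fun b => eventually_all.2 fun c => h1 a b c
  have h2' := eventually_all.2 fun d => eventually_all.2 fun a => eventually_all.2 fun b =>
    eventually_all.2 fun c => h2 d a b c
  filter_upwards [h, h1', h2'] with y hy e1 e2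
  unfold Riem
  simp only [hy, e1, e2]

theorem val_congr_ev {n : ℕ} {G H : Eu n → Mt n} {x : Eu n} (h : G =ᶠ[𝓝 x] H)
    {k : ℕ} (T : NT k) : ∀ i : Fin k → Fin n, T.val G i =ᶠ[𝓝 x] T.val H i := by
  induction T with
  | metric => intro i; exact h.mono fun y hy => by simp only [NT.val, hy]
  | riem => intro i; exact riem_congr_ev h _ _ _ _
  | nabla T ih =>
    intro i
    have h1 := pd_congr_ev (ih (Fin.tail i)) (i 0)
    have h2 := eventually_all.2 fun j => ih j
    have h3 := eventually_all.2 fun a => eventually_all.2 fun b => eventually_all.2 fun c =>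
      gam_congr_ev h a b c
    filter_upwards [h1, h2, h3] with y e1 e2 e3
    simp only [NT.val, covD]
    rw [e1]
    simp only [e2, e3]
  | mul S T ihS ihT =>
    intro i
    filter_upwards [ihS _, ihT _] with y e1 e2
    simp only [NT.val]
    rw [e1, e2]
  | contr T ih =>
    intro i
    have h2 := eventually_all.2 fun j => ih j
    filter_upwards [h2, h] with y e2 hy
    simp only [NT.val]
    simp only [e2, hy]
  | perm σ T ih => intro i; exact ih _
  | add S T ihS ihT =>
    intro i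
    filter_upwards [ihS i, ihT i] with y e1 e2
    simp only [NT.val]
    rw [e1, e2]
  | smul c T ih =>
    intro i
    filter_upwards [ih i] with y e1
    simp only [NT.val]
    rw [e1]

theorem at_congr {n : ℕ} {G H : Eu n → Mt n} {x : Eu n} (h : G =ᶠ[𝓝 x] H) (s : NS) :
    s.at G x = s.at H x := (val_congr_ev h s ![]).self_of_nhds

/-! ### Translations -/

theorem pd_trans {n : ℕ} (v : Eu n) (f : Eu n → ℝ) (i : Fin n) :
    pd i (fun y => f (y + v)) = fun y => pd i f (y + v) := by
  funext y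
  unfold pd
  rw [fderiv_comp_add_right]

theorem gam_trans {n : ℕ} (v : Eu n) (G : Eu n → Mt n) (k i j : Fin n) :
    Gam (fun y => G (y + v)) k i j = fun y => Gam G k i j (y + v) := by
  funext y
  unfold Gam
  have h1 : ∀ a b c, pd c (fun z => G (z + v) a b) y = pd c (fun z => G z a b) (y + v) :=
    fun a b c => congrFun (pd_trans v (fun z => G z a b) c) y
  simp only [h1]

theorem riem_trans {n : ℕ} (v : Eu n) (G : Eu n → Mt n) (i j k l : Fin n) :
    Riem (fun y => G (y + v)) i j k l = fun y => Riem G i j k l (y + v) := by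
  funext y
  unfold Riem
  simp only [gam_trans v G]
  have h1 : ∀ d a b c, pd d (fun z => Gam G a b c (z + v)) y = pd d (Gam G a b c) (y + v) :=
    fun d a b c => congrFun (pd_trans v (Gam G a b c) d) y
  simp only [h1]

theorem val_trans {n : ℕ} (v : Eu n) (G : Eu n → Mt n) {k : ℕ} (T : NT k) :
    ∀ i : Fin k → Fin n, T.val (fun y => G (y + v)) i = fun y => T.val G i (y + v) := by
  induction T with
  | metric => intro i; rfl
  | riem => intro i; exact riem_trans v G _ _ _ _
  | nabla T ih =>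
    intro i
    funext y
    simp only [NT.val, covD]
    simp only [ih, gam_trans v G]
    rw [congrFun (pd_trans v (T.val G (Fin.tail i)) (i 0)) y]
  | mul S T ihS ihT => intro i; funext y; simp only [NT.val, ihS, ihT]
  | contr T ih => intro i; funext y; simp only [NT.val, ih]
  | perm σ T ih => intro i; exact ih _
  | add S T ihS ihT => intro i; funext y; simp only [NT.val, ihS, ihT]
  | smul c T ih => intro i; funext y; simp only [NT.val, ih]

theorem at_trans {n : ℕ} (v : Eu n) (G : Eu n → Mt n) (s : NS) (y : Eu n) :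
    s.at (fun y => G (y + v)) y = s.at G (y + v) := congrFun (val_trans v G s ![]) y

/-! ### Values of the scalars of the example -/

theorem at_add {n : ℕ} (s t : NS) (G : Eu n → Mt n) (x : Eu n) :
    NT.at (.add s t) G x = s.at G x + t.at G x := rfl

theorem at_smul {n : ℕ} (c : ℝ) (s : NS) (G : Eu n → Mt n) (x : Eu n) :
    NT.at (.smul c s) G x = c * s.at G x := rfl

theorem val_nabla0 {n : ℕ} (s : NS) (G : Eu n → Mt n) (j : Fin 1 → Fin n) :
    (NT.nabla s).val G j = pd (j 0) (s.at G) := by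
  funext y
  have h0 : s.val G (Fin.tail j) = s.at G := by
    funext y
    have : Fin.tail j = ![] := Subsingleton.elim _ _
    rw [this]
    rfl
  simp only [NT.val, covD, Finset.univ_eq_empty, Finset.sum_empty, sub_zero, h0]

theorem at_lap {n : ℕ} (s : NS) (G : Eu n → Mt n) (x : Eu n) :
    (lap s).at G x = Lap G (s.at G) x := by
  have h1 : (lap s).at G x = ∑ a, ∑ b, (G x)⁻¹ a b *
      covD G ((NT.nabla s).val G) (Fin.cons a (Fin.cons b ![])) x := rfl
  rw [h1]
  unfold Lap
  refine Finset.sum_congr rfl fun a _ => Finset.sum_congr rfl fun b _ => ?_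
  congr 1
  unfold covD
  rw [val_nabla0, Fin.sum_univ_one]
  have h2 : (Fin.tail (Fin.cons a (Fin.cons b ![]) : Fin 2 → Fin n)) 0 = b := rfl
  have h3 : (Fin.cons a (Fin.cons b ![]) : Fin 2 → Fin n) 0 = a := rfl
  have h4 : (Fin.cons a (Fin.cons b ![]) : Fin 2 → Fin n) (Fin.succ 0) = b := rfl
  rw [h2, h3, h4]
  congr 1
  refine Finset.sum_congr rfl fun c _ => ?_
  rw [val_nabla0]
  simp

/-- the Ricci tensor of the natural tensor `ric` is the library Ricci tensor -/
theorem val_ric {n : ℕ} (G : Eu n → Mt n) (x : Eu n) (hs : (G x).IsSymm) (hd : (G x).det ≠ 0)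
    (i : Fin 2 → Fin n) : ric.val G i x = Ric G x (i 0) (i 1) := by
  have h1 : ric.val G i x = ∑ a, ∑ b, (G x)⁻¹ a b * Riem G a (i 0) b (i 1) x := rfl
  rw [h1]
  unfold Riem
  simp only [Finset.mul_sum]
  have h2 : ∀ a b : Fin n, ∑ m, (G x)⁻¹ a b * (G x a m * (pd b (Gam G m (i 0) (i 1)) x -
      pd (i 1) (Gam G m (i 0) b) x + ∑ p, (Gam G m b p x * Gam G p (i 0) (i 1) x -
      Gam G m (i 1) p x * Gam G p (i 0) b x))) =
      ∑ m, ((G x)⁻¹ b a * G x a m) * (pd b (Gam G m (i 0) (i 1)) x -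
      pd (i 1) (Gam G m (i 0) b) x + ∑ p, (Gam G m b p x * Gam G p (i 0) (i 1) x -
      Gam G m (i 1) p x * Gam G p (i 0) b x)) := by
    intro a b
    refine Finset.sum_congr rfl fun m _ => ?_
    rw [(S1.inv_symm235 hs).apply b a]
    ring
  simp only [h2]
  rw [Finset.sum_comm]
  have h3 : ∀ b : Fin n, ∑ a, ∑ m, ((G x)⁻¹ b a * G x a m) * (pd b (Gam G m (i 0) (i 1)) x -
      pd (i 1) (Gam G m (i 0) b) x + ∑ p, (Gam G m b p x * Gam G p (i 0) (i 1) x -
      Gam G m (i 1) p x * Gam G p (i 0) b x)) = pd b (Gam G b (i 0) (i 1)) x -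
      pd (i 1) (Gam G b (i 0) b) x + ∑ p, (Gam G b b p x * Gam G p (i 0) (i 1) x -
      Gam G b (i 1) p x * Gam G p (i 0) b x) := by
    intro b
    rw [Finset.sum_comm]
    have h4 : ∀ m : Fin n, ∑ a, ((G x)⁻¹ b a * G x a m) * (pd b (Gam G m (i 0) (i 1)) x -
      pd (i 1) (Gam G m (i 0) b) x + ∑ p, (Gam G m b p x * Gam G p (i 0) (i 1) x -
      Gam G m (i 1) p x * Gam G p (i 0) b x)) = (if b = m then 1 else 0) *
      (pd b (Gam G m (i 0) (i 1)) x -
      pd (i 1) (Gam G m (i 0) b) x + ∑ p, (Gam G m b p x * Gam G p (i 0) (i 1) x -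
      Gam G m (i 1) p x * Gam G p (i 0) b x)) := by
      intro m
      rw [← Finset.sum_mul, ← Matrix.mul_apply, Matrix.nonsing_inv_mul _ (isUnit_iff_ne_zero.2 hd),
        Matrix.one_apply]
    simp only [h4]
    rw [Finset.sum_eq_single b]
    · simp
    · intro m _ hm
      rw [if_neg (Ne.symm hm), zero_mul]
    · intro h
      exact absurd (Finset.mem_univ b) h
  simp only [h3]
  simp only [Ric, Matrix.of_apply, Finset.sum_add_distrib, Finset.sum_sub_distrib]

theorem at_scal {n : ℕ} (G : Eu n → Mt n) (x : Eu n) (hs : (G x).IsSymm) (hd : (G x).det ≠ 0) :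
    scal.at G x = ∑ a, ∑ b, (G x)⁻¹ a b * Ric G x a b := by
  have h1 : scal.at G x = ∑ a, ∑ b, (G x)⁻¹ a b * ric.val G (Fin.cons a (Fin.cons b ![])) x := rfl
  rw [h1]
  simp only [val_ric G x hs hd]
  rfl

theorem at_normRic {n : ℕ} (G : Eu n → Mt n) (x : Eu n) (hs : (G x).IsSymm) (hd : (G x).det ≠ 0) :
    normRic.at G x = ∑ c, ∑ d, (G x)⁻¹ c d *
      ∑ a, ∑ b, (G x)⁻¹ a b * (Ric G x a c * Ric G x b d) := by
  have h1 : normRic.at G x = ∑ c, ∑ d, (G x)⁻¹ c d * ∑ a, ∑ b, (G x)⁻¹ a b *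
      (ric.val G ![a, c] x * ric.val G ![b, d] x) := by
    unfold NT.at normRic
    simp only [NT.val]
    refine Finset.sum_congr rfl fun c _ => Finset.sum_congr rfl fun d _ => ?_
    congr 1
  rw [h1]
  simp only [val_ric G x hs hd]
  rfl

theorem at_sig {n : ℕ} (G : Eu n → Mt n) (x : Eu n) :
    sig.at G x = normRic.at G x + (-3 / 10) * (scal.at G x * scal.at G x) := by
  have h1 : sig.at G x = normRic.at G x + (-3 / 10) *
      (scal.val G (fun p => (![] : Fin 0 → Fin n) p) x *
        scal.val G (fun p => (![] : Fin 0 → Fin n) p) x) := rfl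
  rw [h1]
  rfl

end Pool.Agent.U920.NF
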