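import Pool.Agent.U920.NF.Div

/-!
# The metrics `e^{2 φ(y_0)} |dy|^2` on `ℝ^6`
-/

set_option autoImplicit false
open scoped ContDiff Manifold Topology Matrix
open MeasureTheory Filter Set

namespace Pool.Agent.U920.NF

open Pool.Agent.QTot

/-- partial derivatives of a function of the first coordinate -/
theorem pd_first {h : ℝ → ℝ} {h' : ℝ} (y : Eu 6) (hh : HasDerivAt h h' (y 0)) (a : Fin 6) :
    pd a (fun z : Eu 6 => h (z 0)) y = if a = 0 then h' else 0 := by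
  have h1 : HasFDerivAt (fun z : Eu 6 => z 0)
      (ContinuousLinearMap.proj (R := ℝ) (φ := fun _ : Fin 6 => ℝ) 0) y :=
    (ContinuousLinearMap.proj (R := ℝ) (φ := fun _ : Fin 6 => ℝ) 0).hasFDerivAt
  have h2 := hh.comp_hasFDerivAt y h1
  unfold pd
  have h3 : (fun z : Eu 6 => h (z 0)) = h ∘ fun z : Eu 6 => z 0 := rfl
  rw [h3, h2.fderiv]
  simp only [smul_apply, ContinuousLinearMap.proj_apply, smul_eq_mul,
    Pi.single_apply]
  by_cases ha : a = 0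
  · subst ha
    simp
  · rw [if_neg ha, if_neg (fun h => ha h.symm), mul_zero]

/-- the metric `e^{2 φ(y_0)} |dy|^2` -/
noncomputable def G1 (φ : ℝ → ℝ) (y : Eu 6) : Mt 6 := Real.exp (2 * φ (y 0)) • (1 : Mt 6)

theorem G1_inv (φ : ℝ → ℝ) (y : Eu 6) : (G1 φ y)⁻¹ = Real.exp (-(2 * φ (y 0))) • (1 : Mt 6) := by
  apply Matrix.inv_eq_right_inv
  unfold G1
  rw [Matrix.smul_mul, Matrix.mul_smul, Matrix.one_mul, smul_smul, ← Real.exp_add]
  simp

theorem G1_apply (φ : ℝ → ℝ) (y : Eu 6) (i j : Fin 6) :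
    G1 φ y i j = Real.exp (2 * φ (y 0)) * (if i = j then 1 else 0) := by
  simp [G1, Matrix.one_apply]

theorem G1_det (φ : ℝ → ℝ) (y : Eu 6) : (G1 φ y).det = Real.exp (12 * φ (y 0)) := by
  unfold G1
  rw [Matrix.det_smul, Matrix.det_one, mul_one, Fintype.card_fin, ← Real.exp_nat_mul]
  congr 1
  push_cast
  ring

theorem G1_sqrt (φ : ℝ → ℝ) (y : Eu 6) : Real.sqrt (G1 φ y).det = Real.exp (6 * φ (y 0)) := by
  rw [G1_det, show (12 : ℝ) * φ (y 0) = 6 * φ (y 0) + 6 * φ (y 0) by ring, Real.exp_add,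
    Real.sqrt_mul_self (Real.exp_pos _).le]

theorem G1_posDef (φ : ℝ → ℝ) (y : Eu 6) : (G1 φ y).PosDef :=
  Matrix.PosDef.one.smul (Real.exp_pos _)

theorem G1_symm (φ : ℝ → ℝ) (y : Eu 6) : (G1 φ y).IsSymm := by
  unfold G1 Matrix.IsSymm
  simp

/-- integer coefficients of the Christoffel symbols -/
def cz (k i j : Fin 6) : ℤ :=
  (if j = k ∧ i = 0 then 1 else 0) + (if i = k ∧ j = 0 then 1 else 0)
    - (if i = j ∧ k = 0 then 1 else 0)

theorem G1_gam {φ : ℝ → ℝ} {φ1 : ℝ → ℝ} (h1 : ∀ x, HasDerivAt φ (φ1 x) x) (k i j : Fin 6) :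
    Gam (G1 φ) k i j = fun y => φ1 (y 0) * (cz k i j : ℝ) := by
  funext y
  have hpd : ∀ a b c : Fin 6, pd c (fun z => G1 φ z a b) y =
      (if a = b ∧ c = 0 then 1 else 0) * (2 * φ1 (y 0) * Real.exp (2 * φ (y 0))) := by
    intro a b c
    have h2 : (fun z => G1 φ z a b) =
        fun z : Eu 6 => (fun x => Real.exp (2 * φ x) * (if a = b then 1 else 0)) (z 0) := by
      funext z
      rw [G1_apply]
    have h3 : HasDerivAt (fun x => Real.exp (2 * φ x) * (if a = b then 1 else 0))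
        (Real.exp (2 * φ (y 0)) * (2 * φ1 (y 0)) * (if a = b then 1 else 0)) (y 0) :=
      (((h1 (y 0)).const_mul 2).exp).mul_const _
    rw [h2, pd_first y h3]
    by_cases hab : a = b <;> by_cases hc : c = 0 <;> simp [hab, hc] <;> ring
  unfold Gam
  simp only [hpd, G1_inv, Matrix.smul_apply, Matrix.one_apply, smul_eq_mul]
  have h4 : ∀ l : Fin 6, Real.exp (-(2 * φ (y 0))) * (if k = l then 1 else 0) *
      ((if j = l ∧ i = 0 then 1 else 0) * (2 * φ1 (y 0) * Real.exp (2 * φ (y 0))) +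
      (if i = l ∧ j = 0 then 1 else 0) * (2 * φ1 (y 0) * Real.exp (2 * φ (y 0))) -
      (if i = j ∧ l = 0 then 1 else 0) * (2 * φ1 (y 0) * Real.exp (2 * φ (y 0)))) =
      if k = l then 2 * φ1 (y 0) * (cz k i j : ℝ) else 0 := by
    intro l
    by_cases hkl : k = l
    · subst hkl
      have h5 : Real.exp (-(2 * φ (y 0))) * Real.exp (2 * φ (y 0)) = 1 := by
        rw [← Real.exp_add]
        simp
      simp only [if_true, mul_one, cz]
      push_cast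
      linear_combination (2 * φ1 (y 0) * ((if j = k ∧ i = 0 then 1 else 0) +
        (if i = k ∧ j = 0 then 1 else 0) - (if i = j ∧ k = 0 then 1 else 0))) * h5
    · simp [hkl]
  simp only [h4]
  rw [Finset.sum_ite_eq]
  simp
  ring

theorem cz_sum1 : ∀ i : Fin 6, ∑ k, cz k i k = (if i = 0 then 6 else 0) := by decide

theorem cz_sum2 : ∀ i j : Fin 6, ∑ k, ∑ l, (cz k k l * cz l i j - cz k j l * cz l i k) =
    4 * ((if i = 0 ∧ j = 0 then 1 else 0) - (if i = j then 1 else 0)) := by decide +kernel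

theorem cz_sum0 : ∀ i j : Fin 6, cz 0 i j = 2 * (if i = 0 ∧ j = 0 then 1 else 0) -
    (if i = j then 1 else 0) := by decide

theorem G1_ric {φ : ℝ → ℝ} {φ1 φ2 : ℝ → ℝ} (h1 : ∀ x, HasDerivAt φ (φ1 x) x)
    (h2 : ∀ x, HasDerivAt φ1 (φ2 x) x) (y : Eu 6) (i j : Fin 6) :
    Ric (G1 φ) y i j = -(φ2 (y 0)) * (4 * (if i = 0 ∧ j = 0 then 1 else 0) + (if i = j then 1 else 0))
      + 4 * φ1 (y 0) ^ 2 * ((if i = 0 ∧ j = 0 then 1 else 0) - (if i = j then 1 else 0)) := by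
  have hpd : ∀ a k i j : Fin 6, pd a (Gam (G1 φ) k i j) y =
      (if a = 0 then φ2 (y 0) else 0) * (cz k i j : ℝ) := by
    intro a k i j
    rw [G1_gam h1]
    rw [pd_first (h := fun x => φ1 x * (cz k i j : ℝ)) y ((h2 (y 0)).mul_const _)]
    by_cases ha : a = 0 <;> simp [ha]
  unfold Ric
  rw [Matrix.of_apply]
  simp only [hpd]
  simp only [G1_gam h1]
  have e0 : ∑ k : Fin 6, (if k = 0 then φ2 (y 0) else 0) * (cz k i j : ℝ) =
      φ2 (y 0) * (cz 0 i j : ℝ) := by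
    rw [Finset.sum_eq_single 0]
    · simp
    · intro b _ hb
      simp [hb]
    · simp
  have e1 : ∑ k : Fin 6, (if j = 0 then φ2 (y 0) else 0) * (cz k i k : ℝ) =
      (if j = 0 then φ2 (y 0) else 0) * ((∑ k, cz k i k : ℤ) : ℝ) := by
    rw [← Finset.mul_sum]
    push_cast
    rfl
  have e2 : ∑ k : Fin 6, ∑ l : Fin 6, (φ1 (y 0) * (cz k k l : ℝ) * (φ1 (y 0) * (cz l i j : ℝ)) -
      φ1 (y 0) * (cz k j l : ℝ) * (φ1 (y 0) * (cz l i k : ℝ))) =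
      φ1 (y 0) ^ 2 * ((∑ k, ∑ l, (cz k k l * cz l i j - cz k j l * cz l i k) : ℤ) : ℝ) := by
    push_cast
    simp only [Finset.mul_sum]
    refine Finset.sum_congr rfl fun k _ => Finset.sum_congr rfl fun l _ => ?_
    ring
  rw [e0, e1, e2, cz_sum0, cz_sum1 i, cz_sum2]
  by_cases hij : i = j
  · subst hij
    by_cases hi : i = 0 <;> simp [hi] <;> ring
  · by_cases hi : i = 0
    · subst hi
      have hj : ¬ j = 0 := fun h => hij h.symm
      simp [hij, hj]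
    · simp [hi, hij]

theorem G1_smooth {φ : ℝ → ℝ} (hφ : ContDiff ℝ ∞ φ) (i j : Fin 6) :
    ContDiffOn ℝ ∞ (fun y => G1 φ y i j) univ := by
  have h1 : (fun y => G1 φ y i j) =
      fun y : Eu 6 => Real.exp (2 * φ (y 0)) * (if i = j then 1 else 0) := by
    funext y
    rw [G1_apply]
  rw [h1]
  have h2 : ContDiff ℝ ∞ fun y : Eu 6 => y 0 := contDiff_apply ℝ ℝ 0
  exact (((contDiff_const.mul (hφ.comp h2)).exp).mul contDiff_const).contDiffOn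

/-- the value of the scalar `|Ric|² - (3/10) R²` -/
theorem at_sig_G1 {φ : ℝ → ℝ} {φ1 φ2 : ℝ → ℝ} (h1 : ∀ x, HasDerivAt φ (φ1 x) x)
    (h2 : ∀ x, HasDerivAt φ1 (φ2 x) x) (y : Eu 6) :
    sig.at (G1 φ) y = -80 * Real.exp (-(4 * φ (y 0))) *
      (φ1 (y 0) ^ 2 * φ2 (y 0) + 1 / 2 * φ1 (y 0) ^ 4) := by
  have hs := G1_symm φ y
  have hd := (G1_posDef φ y).det_pos.ne'
  rw [at_sig, at_normRic _ _ hs hd, at_scal _ _ hs hd]
  simp only [G1_inv, G1_ric h1 h2, Matrix.smul_apply, Matrix.one_apply, smul_eq_mul]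
  have he : Real.exp (-(4 * φ (y 0))) = Real.exp (-(2 * φ (y 0))) * Real.exp (-(2 * φ (y 0))) := by
    rw [← Real.exp_add]
    ring_nf
  rw [he]
  set E := Real.exp (-(2 * φ (y 0))) with hE
  set a := φ1 (y 0) with ha
  set b := φ2 (y 0) with hb
  clear_value E a b
  have s1 : ∀ F : Fin 6 → Fin 6 → ℝ, ∑ c : Fin 6, ∑ d : Fin 6, E * (if c = d then 1 else 0) * F c d =
      E * ∑ c, F c c := by
    intro F
    rw [Finset.mul_sum]
    refine Finset.sum_congr rfl fun c _ => ?_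
    rw [Finset.sum_eq_single c]
    · simp
    · intro d _ hd
      rw [if_neg (Ne.symm hd)]
      ring
    · simp
  simp only [s1]
  simp only [Fin.sum_univ_six]
  simp (decide := true) only [if_true, if_false]
  norm_num
  ring

theorem at_sEx_G1 {φ : ℝ → ℝ} (hφ : ContDiff ℝ ∞ φ) {φ1 φ2 φ3 φ4 : ℝ → ℝ}
    (h1 : ∀ x, HasDerivAt φ (φ1 x) x) (h2 : ∀ x, HasDerivAt φ1 (φ2 x) x)
    (h3 : ∀ x, HasDerivAt φ2 (φ3 x) x) (h4 : ∀ x, HasDerivAt φ3 (φ4 x) x) (y : Eu 6) :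
    sEx.at (G1 φ) y * Real.exp (6 * φ (y 0)) = -80 *
      (2 * φ2 (y 0) ^ 3 + 6 * φ1 (y 0) * φ2 (y 0) * φ3 (y 0) + φ1 (y 0) ^ 2 * φ4 (y 0)
        - 6 * φ1 (y 0) ^ 2 * φ2 (y 0) ^ 2 - 2 * φ1 (y 0) ^ 3 * φ3 (y 0)
        - 10 * φ1 (y 0) ^ 4 * φ2 (y 0)) := by
  unfold sEx
  rw [at_lap, ← G1_sqrt]
  have hsm : ContDiffOn ℝ ∞ (sig.at (G1 φ)) univ :=
    val_smooth isOpen_univ (G1_smooth hφ) (fun y _ => (G1_posDef φ y).det_pos.ne') sig ![]
  rw [lap_div isOpen_univ (G1_smooth hφ) (fun y _ => G1_posDef φ y) hsm (mem_univ y)]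
  -- the gradient density
  have hg : ∀ a : Fin 6, gradD (G1 φ) (sig.at (G1 φ)) a = fun y : Eu 6 => if a = 0 then
      -80 * (2 * φ1 (y 0) * φ2 (y 0) ^ 2 + φ1 (y 0) ^ 2 * φ3 (y 0) + 2 * φ1 (y 0) ^ 3 * φ2 (y 0)
        - 4 * φ1 (y 0) * (φ1 (y 0) ^ 2 * φ2 (y 0) + 1 / 2 * φ1 (y 0) ^ 4)) else 0 := by
    intro a
    funext z
    have hS : sig.at (G1 φ) = fun y : Eu 6 => (fun x => -80 * Real.exp (-(4 * φ x)) *
        (φ1 x ^ 2 * φ2 x + 1 / 2 * φ1 x ^ 4)) (y 0) := by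
      funext y
      exact at_sig_G1 h1 h2 y
    have hD : HasDerivAt (fun x => -80 * Real.exp (-(4 * φ x)) * (φ1 x ^ 2 * φ2 x + 1 / 2 * φ1 x ^ 4))
        (-80 * Real.exp (-(4 * φ (z 0))) * (2 * φ1 (z 0) * φ2 (z 0) ^ 2 + φ1 (z 0) ^ 2 * φ3 (z 0)
          + 2 * φ1 (z 0) ^ 3 * φ2 (z 0)
          - 4 * φ1 (z 0) * (φ1 (z 0) ^ 2 * φ2 (z 0) + 1 / 2 * φ1 (z 0) ^ 4))) (z 0) := by
      have e1 : HasDerivAt (fun x => -80 * Real.exp (-(4 * φ x)))
          (-80 * (Real.exp (-(4 * φ (z 0))) * -(4 * φ1 (z 0)))) (z 0) :=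
        ((((h1 (z 0)).const_mul 4).fun_neg).exp).const_mul (-80)
      have e2 : HasDerivAt (fun x => φ1 x ^ 2 * φ2 x + 1 / 2 * φ1 x ^ 4)
          (2 * φ1 (z 0) * φ2 (z 0) * φ2 (z 0) + φ1 (z 0) ^ 2 * φ3 (z 0)
            + 1 / 2 * (4 * φ1 (z 0) ^ 3 * φ2 (z 0))) (z 0) := by
        have e3 := (((h2 (z 0)).fun_pow 2).fun_mul (h3 (z 0))).fun_add
          (((h2 (z 0)).fun_pow 4).const_mul (1 / 2))
        refine e3.congr_deriv ?_
        norm_num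
      refine (e1.fun_mul e2).congr_deriv ?_
      ring
    have hp : ∀ b : Fin 6, pd b (sig.at (G1 φ)) z = if b = 0 then
        (-80 * Real.exp (-(4 * φ (z 0))) * (2 * φ1 (z 0) * φ2 (z 0) ^ 2 + φ1 (z 0) ^ 2 * φ3 (z 0)
          + 2 * φ1 (z 0) ^ 3 * φ2 (z 0)
          - 4 * φ1 (z 0) * (φ1 (z 0) ^ 2 * φ2 (z 0) + 1 / 2 * φ1 (z 0) ^ 4))) else 0 := by
      intro b
      rw [hS]
      exact pd_first z hD b
    have he : Real.exp (6 * φ (z 0)) * Real.exp (-(2 * φ (z 0))) * Real.exp (-(4 * φ (z 0))) = 1 := by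
      rw [← Real.exp_add, ← Real.exp_add, ← Real.exp_zero]
      congr 1
      ring
    unfold gradD
    simp only [hp, G1_sqrt, G1_inv, Matrix.smul_apply, Matrix.one_apply, smul_eq_mul]
    rw [Finset.sum_eq_single 0]
    · rw [if_pos rfl]
      by_cases ha : a = 0
      · rw [if_pos ha, if_pos ha]
        linear_combination (-80 * (2 * φ1 (z 0) * φ2 (z 0) ^ 2 + φ1 (z 0) ^ 2 * φ3 (z 0)
          + 2 * φ1 (z 0) ^ 3 * φ2 (z 0)
          - 4 * φ1 (z 0) * (φ1 (z 0) ^ 2 * φ2 (z 0) + 1 / 2 * φ1 (z 0) ^ 4))) * he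
      · rw [if_neg ha, if_neg ha]
        ring
    · intro b _ hb
      rw [if_neg hb]
      ring
    · simp
  simp only [hg]
  rw [Finset.sum_eq_single 0]
  · simp only [if_true]
    have hq : HasDerivAt (fun x => -80 * (2 * φ1 x * φ2 x ^ 2 + φ1 x ^ 2 * φ3 x
        + 2 * φ1 x ^ 3 * φ2 x - 4 * φ1 x * (φ1 x ^ 2 * φ2 x + 1 / 2 * φ1 x ^ 4)))
        (-80 * (2 * φ2 (y 0) ^ 3 + 6 * φ1 (y 0) * φ2 (y 0) * φ3 (y 0) + φ1 (y 0) ^ 2 * φ4 (y 0)
        - 6 * φ1 (y 0) ^ 2 * φ2 (y 0) ^ 2 - 2 * φ1 (y 0) ^ 3 * φ3 (y 0)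
        - 10 * φ1 (y 0) ^ 4 * φ2 (y 0))) (y 0) := by
      have e1 := ((h2 (y 0)).const_mul 2).fun_mul ((h3 (y 0)).fun_pow 2)
      have e2 := ((h2 (y 0)).fun_pow 2).fun_mul (h4 (y 0))
      have e3 := (((h2 (y 0)).fun_pow 3).const_mul 2).fun_mul (h3 (y 0))
      have e4 := ((h2 (y 0)).const_mul 4).fun_mul
        ((((h2 (y 0)).fun_pow 2).fun_mul (h3 (y 0))).fun_add
          (((h2 (y 0)).fun_pow 4).const_mul (1 / 2)))
      refine ((((e1.fun_add e2).fun_add e3).fun_sub e4).const_mul (-80)).congr_deriv ?_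
      norm_num
      ring
    rw [pd_first y hq]
    simp
  · intro b _ hb
    have h5 : (fun y : Eu 6 => if b = 0 then
      -80 * (2 * φ1 (y 0) * φ2 (y 0) ^ 2 + φ1 (y 0) ^ 2 * φ3 (y 0) + 2 * φ1 (y 0) ^ 3 * φ2 (y 0)
        - 4 * φ1 (y 0) * (φ1 (y 0) ^ 2 * φ2 (y 0) + 1 / 2 * φ1 (y 0) ^ 4)) else 0) =
        fun _ => (0 : ℝ) := by
      funext z
      rw [if_neg hb]
    rw [h5, S1.pd_const235]
  · simp

end Pool.Agent.U920.NF
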