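import Pool.Agent.QTot.Defs

/-!
# Natural scalars, natural `n`-forms, and local conformal primitives

Definitions for `MP_18eb12_gt`. Riemannian metrics on manifolds are the structure
`Pool.Agent.QTot.RMetric` of the starting library.
-/

set_option autoImplicit false
open scoped ContDiff Manifold Topology Matrix
open MeasureTheory Filter Set

namespace Pool.Agent.U920.NF

open Pool.Agent.QTot

/-- The Riemann curvature tensor with all indices down, `R_{ijkl} = g_{im} R^m_{jkl}` with
`R^m_{jkl} = ∂_k Γ^m_{jl} - ∂_l Γ^m_{jk} + Γ^m_{kp} Γ^p_{jl} - Γ^m_{lp} Γ^p_{jk}`. -/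
noncomputable def Riem {n : ℕ} (G : Eu n → Mt n) (i j k l : Fin n) (x : Eu n) : ℝ :=
  ∑ m, G x i m * (pd k (Gam G m j l) x - pd l (Gam G m j k) x +
    ∑ p, (Gam G m k p x * Gam G p j l x - Gam G m l p x * Gam G p j k x))

/-- The covariant derivative `∇_a T_{i_1 ... i_k}` of a covariant `k`-tensor; the new index `a` is the
first index (index number `0`). -/
noncomputable def covD {n k : ℕ} (G : Eu n → Mt n) (T : (Fin k → Fin n) → Eu n → ℝ)
    (i : Fin (k + 1) → Fin n) (x : Eu n) : ℝ :=
  pd (i 0) (T (Fin.tail i)) x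
    - ∑ p : Fin k, ∑ a, Gam G a (i 0) (i p.succ) x * T (Function.update (Fin.tail i) p a) x

/-- Universal formulas for natural covariant tensors of rank `k`: everything that can be built from the
metric and the Riemann curvature tensor by covariant derivatives, tensor products, contractions with the
inverse metric, permutations of the indices, sums and multiplication by real constants. -/
inductive NT : ℕ → Type
  | metric : NT 2
  | riem : NT 4
  | nabla {k : ℕ} (T : NT k) : NT (k + 1)
  | mul {j k : ℕ} (S : NT j) (T : NT k) : NT (j + k)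
  | contr {k : ℕ} (T : NT (k + 2)) : NT k
  | perm {k : ℕ} (σ : Equiv.Perm (Fin k)) (T : NT k) : NT k
  | add {k : ℕ} (S T : NT k) : NT k
  | smul {k : ℕ} (c : ℝ) (T : NT k) : NT k

/-- The components of the natural tensor `T` for the metric with matrix field `G` (in coordinates);
`contr` contracts the first two indices with the inverse metric. -/
noncomputable def NT.val {n : ℕ} (G : Eu n → Mt n) :
    {k : ℕ} → NT k → (Fin k → Fin n) → Eu n → ℝ
  | _, .metric, i, x => G x (i 0) (i 1)
  | _, .riem, i, x => Riem G (i 0) (i 1) (i 2) (i 3) x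
  | _, .nabla T, i, x => covD G (T.val G) i x
  | _, .mul (j := j) (k := k) S T, i, x =>
      S.val G (fun p => i (Fin.castAdd k p)) x * T.val G (fun p => i (Fin.natAdd j p)) x
  | _, .contr T, i, x => ∑ a, ∑ b, (G x)⁻¹ a b * T.val G (Fin.cons a (Fin.cons b i)) x
  | _, .perm σ T, i, x => T.val G (i ∘ σ) x
  | _, .add S T, i, x => S.val G i x + T.val G i x
  | _, .smul c T, i, x => c * T.val G i x

/-- A natural scalar is a natural tensor of rank `0`; it defines the natural `n`-form `s_g dv_g`. -/
abbrev NS : Type := NT 0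

/-- The value of a natural scalar for the matrix field `G` at the point `x` of `ℝ^n`. -/
noncomputable def NT.at {n : ℕ} (s : NS) (G : Eu n → Mt n) (x : Eu n) : ℝ := s.val G ![] x

/-- Closed (compact, without boundary) smooth manifolds of dimension `n`, with their Borel sets. -/
structure ClosedManifold (n : ℕ) where
  /-- the underlying space -/
  M : Type
  [top : TopologicalSpace M]
  [charted : ChartedSpace (Eu n) M]
  [smooth : IsManifold 𝓘(ℝ, Eu n) ∞ M]
  [compact : CompactSpace M]
  [t2 : T2Space M]
  [meas : MeasurableSpace M]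
  [borel : BorelSpace M]

attribute [instance] ClosedManifold.top ClosedManifold.charted ClosedManifold.smooth
  ClosedManifold.compact ClosedManifold.t2 ClosedManifold.meas ClosedManifold.borel

/-- smooth real functions on `X` -/
abbrev Cinf {n : ℕ} (X : ClosedManifold n) : Type := C^∞⟮𝓘(ℝ, Eu n), X.M; 𝓘(ℝ, ℝ), ℝ⟯

theorem smooth_symm {n : ℕ} {X : ClosedManifold n} (w : Cinf X)
    {e : OpenPartialHomeomorph X.M (Eu n)} (he : e ∈ atlas (Eu n) X.M) :
    ContDiffOn ℝ ∞ (fun y => w (e.symm y)) e.target := by
  rw [← contMDiffOn_iff_contDiffOn]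
  have h1 : ContMDiffOn 𝓘(ℝ, Eu n) 𝓘(ℝ, Eu n) ∞ e.symm e.target :=
    contMDiffOn_symm_of_mem_maximalAtlas (IsManifold.subset_maximalAtlas he)
  exact w.contMDiff.comp_contMDiffOn h1

/-- The conformal metric `e^{2w} g`. -/
noncomputable def conf {n : ℕ} {X : ClosedManifold n} (g : RMetric n X.M) (w : Cinf X) :
    RMetric n X.M where
  G e y := Real.exp (2 * w (e.symm y)) • g.G e y
  smooth e he i j := by
    have h1 : ContDiffOn ℝ ∞ (fun y => Real.exp (2 * w (e.symm y))) e.target :=
      (contDiffOn_const.mul (smooth_symm w he)).exp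
    exact h1.mul (g.smooth e he i j)
  posDef e he y hy := (g.posDef e he y hy).smul (Real.exp_pos _)
  compat e he e' he' y hy hy' := by
    have h1 : e'.symm (trn e e' y) = e.symm y := by
      unfold trn
      rw [e'.left_inv hy']
    rw [h1, g.compat e he e' he' y hy hy']
    simp only [Matrix.mul_smul, Matrix.smul_mul]

/-- The value of the natural scalar `s` for the metric `g` at the point `x` of the manifold, computed in the
preferred chart at `x`. -/
noncomputable def sval {n : ℕ} {X : ClosedManifold n} (s : NS) (g : RMetric n X.M) (x : X.M) : ℝ :=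
  s.at (g.G (chartAt (Eu n) x)) (chartAt (Eu n) x x)

/-- The integral of the natural `n`-form `S = s dv` is conformally invariant: `∫ S_ĝ = ∫ S_g` for all
closed `n`-manifolds, all metrics `g` and all smooth `w`, where `ĝ = e^{2w} g` and `μ`, `μ'` are the
Riemannian volume measures of `g` and `ĝ`. -/
def ConfInvIntegral (n : ℕ) (s : NS) : Prop :=
  ∀ (X : ClosedManifold n) (g : RMetric n X.M) (w : Cinf X) (μ μ' : Measure X.M),
    g.IsVolume μ → (conf g w).IsVolume μ' →
      ∫ x, sval s (conf g w) x ∂μ' = ∫ x, sval s g x ∂μ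

/-- The natural `n`-form `L = l dv` is a local conformal invariant: `L_ĝ = L_g` pointwise, that is
`e^{nw} l_ĝ = l_g`, for all metrics `G` on open sets `U` of `ℝ^n` and all smooth `w` on `U`. -/
def IsLocalConfInv (n : ℕ) (l : NS) : Prop :=
  ∀ (U : Set (Eu n)), IsOpen U → ∀ G : Eu n → Mt n,
    (∀ i j, ContDiffOn ℝ ∞ (fun y => G y i j) U) → (∀ y ∈ U, (G y).PosDef) →
      ∀ w : Eu n → ℝ, ContDiffOn ℝ ∞ w U → ∀ x ∈ U,
        Real.exp (n * w x) * l.at (fun y => Real.exp (2 * w y) • G y) x = l.at G x

/-- The natural scalar `q` is a critical Q-curvature: the natural `n`-form `Q = q dv` satisfies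
`Q_ĝ = Q_g + P_g w`, that is `e^{nw} q_ĝ = q_g + P_g w`, where for every metric `g` on a closed
`n`-manifold `P_g` is linear and formally self-adjoint. -/
def IsQCurvature (n : ℕ) (q : NS) : Prop :=
  ∀ (X : ClosedManifold n) (g : RMetric n X.M), ∃ P : Cinf X →ₗ[ℝ] (X.M → ℝ),
    (∀ μ : Measure X.M, g.IsVolume μ → ∀ w₁ w₂ : Cinf X,
      ∫ x, w₁ x * P w₂ x ∂μ = ∫ x, w₂ x * P w₁ x ∂μ) ∧
    ∀ (w : Cinf X) (x : X.M), Real.exp (n * w x) * sval q (conf g w) x = sval q g x + P w x

/-- The natural `n`-form `s dv` has a local conformal primitive: there is a natural `n`-form `F = f dv`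
such that for all closed `n`-manifolds, all metrics `g` and all smooth `w`, the derivative at `ε = 0` of
the integral of `F` for the metrics `e^{2εw} g` (with Riemannian volume measures `μ ε`) is `∫ w s dv`. -/
def HasPrimitive (n : ℕ) (s : NS) : Prop :=
  ∃ f : NS, ∀ (X : ClosedManifold n) (g : RMetric n X.M) (w : Cinf X) (μ : ℝ → Measure X.M),
    (∀ ε : ℝ, (conf g (ε • w)).IsVolume (μ ε)) →
      HasDerivAt (fun ε : ℝ => ∫ x, sval f (conf g (ε • w)) x ∂(μ ε))
        (∫ x, w x * sval s g x ∂(μ 0)) 0

/-! ### The example -/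

/-- the Ricci tensor `R_{jl} = g^{ik} R_{ijkl}` -/
def ric : NT 2 := .contr (.perm (Equiv.swap 1 2) .riem)

/-- the scalar curvature -/
def scal : NS := .contr ric

/-- `|Ric|^2` -/
def normRic : NS := .contr (.contr (.perm (Equiv.swap 1 2) (.mul ric ric)))

/-- the Laplacian `g^{ab} ∇_a ∇_b s` of a natural scalar -/
def lap (s : NS) : NS := .contr (.nabla (.nabla s))

/-- `|Ric|^2 - (3/10) R^2`; in dimension `6` this is `-32 σ_2` of the Schouten tensor. -/
noncomputable def sig : NS := .add normRic (.smul (-3 / 10) (.mul scal scal))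

/-- The natural scalar `Δ(|Ric|^2 - (3/10) R^2)`. -/
noncomputable def sEx : NS := lap sig

end Pool.Agent.U920.NF
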