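import Pool.Agent.U920.NF.Basic

/-!
# The divergence form of the Laplacian and its integral
-/

set_option autoImplicit false
open scoped ContDiff Manifold Topology Matrix
open MeasureTheory Filter Set

namespace Pool.Agent.U920.NF

open Pool.Agent.QTot

/-- derivative of a determinant (as in the starting library, `Helper171.NHM.OriHom`) -/
theorem hasDerivAt_det {n : ℕ} {A : ℝ → Matrix (Fin n) (Fin n) ℝ} {A' : Matrix (Fin n) (Fin n) ℝ}
    {t : ℝ} (h : ∀ i j, HasDerivAt (fun s => A s i j) (A' i j) t) :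
    HasDerivAt (fun s => (A s).det) (∑ i, ((A t).updateRow i (A' i)).det) t := by
  have h1 : ∀ s, (A s).det =
      ∑ σ : Equiv.Perm (Fin n), ((Equiv.Perm.sign σ : ℤ) : ℝ) * ∏ l, A s l (σ l) := by
    intro s
    rw [← Matrix.det_transpose, Matrix.det_apply']
    rfl
  have h2 : (∑ i, ((A t).updateRow i (A' i)).det) =
      ∑ σ : Equiv.Perm (Fin n), ((Equiv.Perm.sign σ : ℤ) : ℝ) *
        ∑ i, (∏ l ∈ Finset.univ.erase i, A t l (σ l)) * A' i (σ i) := by
    simp only [Finset.mul_sum]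
    rw [Finset.sum_comm]
    apply Finset.sum_congr rfl
    intro i _
    rw [← Matrix.det_transpose, Matrix.det_apply']
    apply Finset.sum_congr rfl
    intro σ _
    congr 1
    rw [← Finset.mul_prod_erase Finset.univ _ (Finset.mem_univ i), mul_comm]
    congr 1
    · apply Finset.prod_congr rfl
      intro l hl
      rw [Matrix.transpose_apply, Matrix.updateRow_ne (Finset.mem_erase.mp hl).1]
    · simp [Matrix.updateRow_self]
  rw [h2]
  simp only [h1]
  apply HasDerivAt.fun_sum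
  intro σ _
  apply HasDerivAt.const_mul
  have h3 := HasDerivAt.fun_finsetProd (u := (Finset.univ : Finset (Fin n)))
    (f := fun l s => A s l (σ l)) (f' := fun l => A' l (σ l)) (x := t) (fun l _ => h l (σ l))
  simpa [smul_eq_mul] using h3

theorem det_updateRow_eq {n : ℕ} (A : Matrix (Fin n) (Fin n) ℝ) (i : Fin n) (v : Fin n → ℝ) :
    (A.updateRow i v).det = ∑ j, v j * A.adjugate j i := by
  rw [Matrix.det_eq_sum_mul_adjugate_row (A.updateRow i v) i]
  refine Finset.sum_congr rfl fun j _ => ?_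
  rw [Matrix.updateRow_self, Matrix.adjugate_apply, Matrix.adjugate_apply, Matrix.updateRow_idem]

theorem hasDerivAt_slice {n : ℕ} {f : Eu n → ℝ} {x : Eu n} (hf : DifferentiableAt ℝ f x)
    (i : Fin n) : HasDerivAt (fun t : ℝ => f (x + t • Pi.single i 1)) (pd i f x) 0 := by
  have h1 : HasDerivAt (fun t : ℝ => x + t • (Pi.single i 1 : Eu n)) (Pi.single i 1) 0 := by
    have := ((hasDerivAt_id (0 : ℝ)).smul_const (Pi.single i 1 : Eu n)).const_add x
    simpa using this
  have hf' : HasFDerivAt f (fderiv ℝ f x) (x + (0 : ℝ) • (Pi.single i 1 : Eu n)) := by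
    simpa using hf.hasFDerivAt
  exact hf'.comp_hasDerivAt (0 : ℝ) h1

/-- Jacobi's formula -/
theorem pd_det {n : ℕ} {G : Eu n → Mt n} {x : Eu n}
    (hG : ∀ i j, DifferentiableAt ℝ (fun y => G y i j) x) (hd : (G x).det ≠ 0)
    (hdet : DifferentiableAt ℝ (fun y => (G y).det) x) (a : Fin n) :
    pd a (fun y => (G y).det) x =
      (G x).det * ∑ k, ∑ l, (G x)⁻¹ l k * pd a (fun y => G y k l) x := by
  have h1 := hasDerivAt_slice hdet a
  have h2 : HasDerivAt (fun t : ℝ => (G (x + t • Pi.single a 1)).det)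
      (∑ i, ((G (x + (0 : ℝ) • Pi.single a 1)).updateRow i
        ((Matrix.of fun k l => pd a (fun y => G y k l) x) i)).det) 0 :=
    hasDerivAt_det (A' := Matrix.of fun k l => pd a (fun y => G y k l) x)
      (fun i j => hasDerivAt_slice (hG i j) a)
  rw [h1.unique h2]
  simp only [zero_smul, add_zero, det_updateRow_eq, Matrix.of_apply]
  rw [Finset.mul_sum]
  refine Finset.sum_congr rfl fun k _ => ?_
  rw [Finset.mul_sum]
  refine Finset.sum_congr rfl fun l _ => ?_
  have h3 : (G x).adjugate l k = (G x).det * (G x)⁻¹ l k := by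
    rw [Matrix.inv_def, Matrix.smul_apply, smul_eq_mul, Ring.inverse_eq_inv']
    field_simp
  rw [h3]
  ring

/-- the gradient density `√det G G^{ab} ∂_b f` -/
noncomputable def gradD {n : ℕ} (G : Eu n → Mt n) (f : Eu n → ℝ) (a : Fin n) (y : Eu n) : ℝ :=
  Real.sqrt (G y).det * ∑ b, (G y)⁻¹ a b * pd b f y

theorem det_smooth {n : ℕ} {U : Set (Eu n)} {G : Eu n → Mt n}
    (hG : ∀ i j, ContDiffOn ℝ ∞ (fun x => G x i j) U) :
    ContDiffOn ℝ ∞ (fun x => (G x).det) U := by
  simp only [Matrix.det_apply']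
  exact ContDiffOn.sum fun σ _ => contDiffOn_const.mul (contDiffOn_prod fun l _ => hG _ _)

theorem gradD_smooth {n : ℕ} {U : Set (Eu n)} (hU : IsOpen U) {G : Eu n → Mt n}
    (hG : ∀ i j, ContDiffOn ℝ ∞ (fun x => G x i j) U) (hp : ∀ x ∈ U, (G x).PosDef)
    {f : Eu n → ℝ} (hf : ContDiffOn ℝ ∞ f U) (a : Fin n) : ContDiffOn ℝ ∞ (gradD G f a) U := by
  unfold gradD
  refine ContDiffOn.mul ((det_smooth hG).sqrt fun x hx => (hp x hx).det_pos.ne') ?_
  exact ContDiffOn.sum fun b _ =>
    (S1.inv_smooth235 hG (fun x hx => (hp x hx).det_pos.ne') a b).mul (S1.pd_smooth235 hU hf b)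

theorem lap_alg {n : ℕ} (H : Fin n → Fin n → ℝ) (D : Fin n → Fin n → Fin n → ℝ)
    (hH : ∀ i j, H i j = H j i) (b : Fin n) :
    -(∑ i, ∑ j, H i j * ((1 / 2) * ∑ l, H b l * (D i j l + D j i l - D l i j))) =
      (∑ a, -(∑ k, ∑ l, H a k * D a k l * H l b)) +
        ∑ a, H a b * ((1 / 2) * ∑ k, ∑ l, H l k * D a k l) := by
  have hA : ∑ i, ∑ j, ∑ l, H i j * H b l * D j i l = ∑ i, ∑ j, ∑ l, H i j * H b l * D i j l := by
    rw [Finset.sum_comm]
    refine Finset.sum_congr rfl fun i _ => Finset.sum_congr rfl fun j _ =>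
      Finset.sum_congr rfl fun l _ => ?_
    rw [hH i j]
  have h1 : ∑ i, ∑ j, H i j * ((1 / 2) * ∑ l, H b l * (D i j l + D j i l - D l i j)) =
      (1 / 2) * (∑ i, ∑ j, ∑ l, H i j * H b l * D i j l + ∑ i, ∑ j, ∑ l, H i j * H b l * D j i l
        - ∑ i, ∑ j, ∑ l, H i j * H b l * D l i j) := by
    simp only [Finset.mul_sum, ← Finset.sum_add_distrib, ← Finset.sum_sub_distrib]
    refine Finset.sum_congr rfl fun i _ => Finset.sum_congr rfl fun j _ =>
      Finset.sum_congr rfl fun l _ => ?_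
    ring
  have h2 : ∑ a, -(∑ k, ∑ l, H a k * D a k l * H l b) =
      -(∑ i, ∑ j, ∑ l, H i j * H b l * D i j l) := by
    rw [Finset.sum_neg_distrib]
    congr 1
    refine Finset.sum_congr rfl fun i _ => Finset.sum_congr rfl fun j _ =>
      Finset.sum_congr rfl fun l _ => ?_
    rw [hH l b]
    ring
  have h3 : ∑ a, H a b * ((1 / 2) * ∑ k, ∑ l, H l k * D a k l) =
      (1 / 2) * ∑ i, ∑ j, ∑ l, H i j * H b l * D l i j := by
    have h4 : ∑ i, ∑ j, ∑ l, H i j * H b l * D l i j = ∑ a, ∑ k, ∑ l, H k l * H b a * D a k l := by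
      have h5 : ∀ i : Fin n, ∑ j, ∑ l, H i j * H b l * D l i j = ∑ l, ∑ j, H i j * H b l * D l i j :=
        fun i => Finset.sum_comm
      simp only [h5]
      rw [Finset.sum_comm]
    rw [h4]
    simp only [Finset.mul_sum]
    refine Finset.sum_congr rfl fun i _ => Finset.sum_congr rfl fun j _ =>
      Finset.sum_congr rfl fun l _ => ?_
    rw [hH i b, hH l j]
    ring
  rw [h1, h2, h3, hA]
  ring

theorem pd_sqrt {n : ℕ} {D : Eu n → ℝ} {x : Eu n} (hD : DifferentiableAt ℝ D x) (h : 0 < D x)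
    (a : Fin n) : pd a (fun y => Real.sqrt (D y)) x = pd a D x / (2 * Real.sqrt (D x)) := by
  unfold pd
  rw [(hD.hasFDerivAt.sqrt h.ne').fderiv]
  simp
  ring

/-- the Laplacian in divergence form -/
theorem lap_div {n : ℕ} {U : Set (Eu n)} (hU : IsOpen U) {G : Eu n → Mt n}
    (hG : ∀ i j, ContDiffOn ℝ ∞ (fun x => G x i j) U) (hp : ∀ x ∈ U, (G x).PosDef)
    {f : Eu n → ℝ} (hf : ContDiffOn ℝ ∞ f U) {x : Eu n} (hx : x ∈ U) :
    Lap G f x * Real.sqrt (G x).det = ∑ a, pd a (gradD G f a) x := by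
  have hd : ∀ x ∈ U, (G x).det ≠ 0 := fun x hx => (hp x hx).det_pos.ne'
  have hsy : ∀ x ∈ U, (G x).IsSymm := fun y hy => by
    have h1 : (G y)ᴴ = G y := (hp y hy).isHermitian
    rw [Matrix.conjTranspose_eq_transpose_of_trivial] at h1
    exact h1
  have hdet := (hp x hx).det_pos
  have hGd : ∀ i j, DifferentiableAt ℝ (fun y => G y i j) x := fun i j => S1.diffAt235 hU (hG i j) hx
  have hId := fun k l => S1.diffAt235 hU (S1.inv_smooth235 hG hd k l) hx
  have hfd := fun b => S1.diffAt235 hU (S1.pd_smooth235 hU hf b) hx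
  have hsum : ∀ a, DifferentiableAt ℝ (fun y => ∑ b, (G y)⁻¹ a b * pd b f y) x := fun a =>
    DifferentiableAt.fun_sum fun b _ => (hId a b).mul (hfd b)
  have hdetd : DifferentiableAt ℝ (fun y => (G y).det) x := S1.diffAt235 hU (det_smooth hG) hx
  have hsq : DifferentiableAt ℝ (fun y => Real.sqrt (G y).det) x := hdetd.sqrt hdet.ne'
  set s := Real.sqrt (G x).det with hs
  have hs0 : 0 < s := Real.sqrt_pos.2 hdet
  have hss : s * s = (G x).det := Real.mul_self_sqrt hdet.le
  set H : Fin n → Fin n → ℝ := fun i j => (G x)⁻¹ i j with hH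
  set D : Fin n → Fin n → Fin n → ℝ := fun a k l => pd a (fun y => G y k l) x with hD
  have hHs : ∀ i j, H i j = H j i := fun i j => (S1.inv_symm235 (hsy x hx)).apply j i
  have hps : ∀ a, pd a (fun y => Real.sqrt (G y).det) x = s * ((1 / 2) * ∑ k, ∑ l, H l k * D a k l) := by
    intro a
    rw [pd_sqrt hdetd hdet, pd_det hGd (hd x hx) hdetd, ← hs, ← hss]
    field_simp
    rfl
  have hpi : ∀ a b, pd a (fun y => (G y)⁻¹ a b) x = -(∑ k, ∑ l, H a k * D a k l * H l b) := by
    intro a b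
    have h1 := congrFun (congrFun (S1.pd_inv235 hU hG hd hx a) a) b
    rw [Matrix.of_apply] at h1
    rw [h1, Matrix.neg_apply, Matrix.mul_apply]
    congr 1
    rw [Finset.sum_comm]
    refine Finset.sum_congr rfl fun l _ => ?_
    rw [Matrix.mul_apply, Finset.sum_mul]
    rfl
  have hR : ∀ a, pd a (gradD G f a) x = s * (∑ b, H a b * pd a (pd b f) x) +
      (s * ∑ b, pd b f x * (-(∑ k, ∑ l, H a k * D a k l * H l b)) +
        s * ∑ b, pd b f x * (H a b * ((1 / 2) * ∑ k, ∑ l, H l k * D a k l))) := by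
    intro a
    unfold gradD
    rw [S1.pd_mul235 hsq (hsum a), S1.pd_sum235 (F := fun b y => (G y)⁻¹ a b * pd b f y) _
      fun b _ => (hId a b).mul (hfd b), hps]
    have h1 : ∀ b, pd a (fun y => (G y)⁻¹ a b * pd b f y) x =
        H a b * pd a (pd b f) x + pd b f x * (-(∑ k, ∑ l, H a k * D a k l * H l b)) := by
      intro b
      rw [S1.pd_mul235 (hId a b) (hfd b), hpi]
    simp only [h1, Finset.sum_add_distrib]
    rw [Finset.sum_mul]
    have h2 : ∀ C : ℝ, ∑ i, (G x)⁻¹ a i * pd i f x * (s * C) =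
        s * ∑ b, pd b f x * (H a b * C) := by
      intro C
      rw [Finset.mul_sum]
      refine Finset.sum_congr rfl fun b _ => ?_
      simp only [hH]
      ring
    rw [h2]
    ring
  have hL : Lap G f x = ∑ a, ∑ b, H a b * pd a (pd b f) x +
      ∑ b, pd b f x * (-(∑ i, ∑ j, H i j * ((1 / 2) * ∑ l, H b l * (D i j l + D j i l - D l i j)))) := by
    obtain ⟨E, hE⟩ : ∃ E : Fin n → Fin n → Fin n → ℝ, E = fun k i j =>
      H i j * ((1 / 2) * ∑ l, H k l * (D i j l + D j i l - D l i j)) := ⟨_, rfl⟩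
    have h1 : ∀ i j : Fin n, (G x)⁻¹ i j * (pd i (pd j f) x - ∑ k, Gam G k i j x * pd k f x) =
        H i j * pd i (pd j f) x + ∑ k, pd k f x * (-(E k i j)) := by
      intro i j
      rw [mul_sub, sub_eq_add_neg]
      congr 1
      rw [Finset.mul_sum, ← Finset.sum_neg_distrib]
      refine Finset.sum_congr rfl fun k _ => ?_
      unfold Gam
      simp only [hE, hH, hD]
      ring
    have h3 : ∀ b, ∑ i, ∑ j, H i j * ((1 / 2) * ∑ l, H b l * (D i j l + D j i l - D l i j)) =
        ∑ i, ∑ j, E b i j := by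
      intro b
      simp only [hE]
    unfold Lap
    simp only [h1, h3, Finset.sum_add_distrib]
    congr 1
    have h2 : ∀ i : Fin n, ∑ j, ∑ k, pd k f x * (-(E k i j)) = ∑ k, ∑ j, pd k f x * (-(E k i j)) :=
      fun i => Finset.sum_comm
    simp only [h2]
    rw [Finset.sum_comm]
    refine Finset.sum_congr rfl fun b _ => ?_
    rw [← Finset.sum_neg_distrib, Finset.mul_sum]
    refine Finset.sum_congr rfl fun i _ => ?_
    rw [← Finset.sum_neg_distrib, Finset.mul_sum]
  rw [hL]
  simp only [hR, Finset.sum_add_distrib]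
  simp only [lap_alg H D hHs]
  have h3 : ∑ a, s * ∑ b, pd b f x * (-(∑ k, ∑ l, H a k * D a k l * H l b)) =
      s * ∑ b, pd b f x * ∑ a, -(∑ k, ∑ l, H a k * D a k l * H l b) := by
    rw [← Finset.mul_sum, Finset.sum_comm]
    congr 1
    refine Finset.sum_congr rfl fun b _ => ?_
    rw [Finset.mul_sum]
  have h4 : ∑ a, s * ∑ b, pd b f x * (H a b * ((1 / 2) * ∑ k, ∑ l, H l k * D a k l)) =
      s * ∑ b, pd b f x * ∑ a, H a b * ((1 / 2) * ∑ k, ∑ l, H l k * D a k l) := by
    rw [← Finset.mul_sum, Finset.sum_comm]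
    congr 1
    refine Finset.sum_congr rfl fun b _ => ?_
    rw [Finset.mul_sum]
  rw [h3, h4]
  simp only [mul_add, Finset.sum_add_distrib, ← Finset.mul_sum]
  ring

/-- the integral of a partial derivative of a smooth compactly supported function vanishes -/
theorem integral_pd {n : ℕ} {f : Eu n → ℝ} (hf : ContDiff ℝ ∞ f) (hc : HasCompactSupport f)
    (a : Fin n) : Integrable (pd a f) ∧ ∫ y, pd a f y = 0 := by
  have hcf : Continuous (pd a f) := by
    unfold pd
    exact (hf.continuous_fderiv (by simp)).clm_apply continuous_const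
  have hcs : HasCompactSupport (pd a f) := by
    unfold pd
    exact (hc.fderiv_apply (𝕜 := ℝ) _)
  have hi : Integrable (pd a f) := hcf.integrable_of_hasCompactSupport hcs
  refine ⟨hi, ?_⟩
  have h := integral_mul_fderiv_eq_neg_fderiv_mul_of_integrable (μ := (volume : Measure (Eu n)))
    (f := fun _ : Eu n => (1 : ℝ)) (g := f) (v := Pi.single a 1) (by simp)
    (by simp only [one_mul]; exact hi)
    (by simpa using hf.continuous.integrable_of_hasCompactSupport hc)
    (fun x _ => differentiableAt_const _) (fun x _ => (hf.differentiable (by simp)) x)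
  simpa [pd] using h

end Pool.Agent.U920.NF
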