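import Pool.Agent.U920.NF.Div
import Pool.Agent.QTot.N3
import Pool.Agent.QTot.N2
import Pool.Agent.QTot.N4
import Pool.Agent.QTot.MA
import Pool.Agent.QTot.MD

/-!
# The integral of a Laplacian over a closed manifold vanishes
-/

set_option autoImplicit false
open scoped ContDiff Manifold Topology Matrix
open MeasureTheory Filter Set

namespace Pool.Agent.U920.NF

open Pool.Agent.QTot

variable {n : ℕ} {X : ClosedManifold n}

/-- the Laplacian of a function on the manifold, computed in the preferred chart -/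
noncomputable def lapM (g : RMetric n X.M) (h : X.M → ℝ) (x : X.M) : ℝ :=
  Lap (g.G (chartAt (Eu n) x)) (fun y => h ((chartAt (Eu n) x).symm y)) (chartAt (Eu n) x x)

theorem metric_symm (g : RMetric n X.M) {e : OpenPartialHomeomorph X.M (Eu n)}
    (he : e ∈ atlas (Eu n) X.M) {y : Eu n} (hy : y ∈ e.target) : (g.G e y).IsSymm := by
  have h1 : (g.G e y)ᴴ = g.G e y := (g.posDef e he y hy).isHermitian
  rw [Matrix.conjTranspose_eq_transpose_of_trivial] at h1
  exact h1

theorem pull_ev (g : RMetric n X.M) {c e : OpenPartialHomeomorph X.M (Eu n)}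
    (hc : c ∈ atlas (Eu n) X.M) (he : e ∈ atlas (Eu n) X.M) {y : Eu n} (hy : y ∈ cdom c e) :
    g.G c =ᶠ[𝓝 y] pull (trn c e) (g.G e) := by
  filter_upwards [(MA.cdom_open c e).mem_nhds hy] with z hz
  exact g.compat c hc e he z hz.1 hz.2

theorem comp_symm {h : X.M → ℝ} (hh : ContMDiff 𝓘(ℝ, Eu n) 𝓘(ℝ, ℝ) ∞ h)
    {e : OpenPartialHomeomorph X.M (Eu n)} (he : e ∈ atlas (Eu n) X.M) :
    ContDiffOn ℝ ∞ (fun y => h (e.symm y)) e.target := smooth_symm (X := X) ⟨h, hh⟩ he

theorem chart_mem (x : X.M) {e : OpenPartialHomeomorph X.M (Eu n)} (hx : x ∈ e.source) :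
    chartAt (Eu n) x x ∈ cdom (chartAt (Eu n) x) e ∧ trn (chartAt (Eu n) x) e (chartAt (Eu n) x x) = e x := by
  have hxc : x ∈ (chartAt (Eu n) x).source := mem_chart_source (Eu n) x
  refine ⟨⟨(chartAt (Eu n) x).map_source hxc, ?_⟩, ?_⟩
  · rw [(chartAt (Eu n) x).left_inv hxc]
    exact hx
  · unfold trn
    rw [(chartAt (Eu n) x).left_inv hxc]

theorem lapM_chart (g : RMetric n X.M) {h : X.M → ℝ} (hh : ContMDiff 𝓘(ℝ, Eu n) 𝓘(ℝ, ℝ) ∞ h)
    {e : OpenPartialHomeomorph X.M (Eu n)} (he : e ∈ atlas (Eu n) X.M) {x : X.M} (hx : x ∈ e.source) :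
    lapM g h x = Lap (g.G e) (fun y => h (e.symm y)) (e x) := by
  set c := chartAt (Eu n) x with hcdef
  have hc : c ∈ atlas (Eu n) X.M := chart_mem_atlas (Eu n) x
  obtain ⟨hU, htr⟩ := chart_mem x hx
  rw [← hcdef] at hU htr
  have h1 : (fun y => h (c.symm y)) =ᶠ[𝓝 (c x)] fun y => (fun z => h (e.symm z)) (trn c e y) := by
    filter_upwards [(MA.cdom_open c e).mem_nhds hU] with z hz
    show h (c.symm z) = h (e.symm (trn c e z))
    rw [(MA.trn_mem hz).2.1]
  have het : trn c e (c x) ∈ e.target := (MA.trn_mem hU).1.1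
  unfold lapM
  rw [← hcdef, N4.lap_congr (pull_ev g hc he hU) h1]
  rw [N3.lap_pull ((MA.trn_smooth hc he).contDiffAt ((MA.cdom_open c e).mem_nhds hU)) (MA.jac_det hc he hU)
    (fun i j => (g.smooth e he i j).contDiffAt (e.open_target.mem_nhds het)) ?_
    (g.posDef e he _ het).det_pos.ne'
    ((comp_symm hh he).contDiffAt (e.open_target.mem_nhds het)), htr]
  filter_upwards [e.open_target.mem_nhds het] with z hz
  exact metric_symm g he hz

theorem lapM_zero (g : RMetric n X.M) {h : X.M → ℝ} {x : X.M} (hx : h =ᶠ[𝓝 x] fun _ => 0) :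
    lapM g h x = 0 := by
  set c := chartAt (Eu n) x with hcdef
  have hxc : x ∈ c.source := mem_chart_source (Eu n) x
  have hct : c x ∈ c.target := c.map_source hxc
  have h1 : (fun y => h (c.symm y)) =ᶠ[𝓝 (c x)] fun _ => (0 : ℝ) := by
    have h2 : ContinuousAt c.symm (c x) := c.continuousAt_symm hct
    have h3 : Tendsto c.symm (𝓝 (c x)) (𝓝 x) := by
      have := h2.tendsto
      rwa [c.left_inv hxc] at this
    exact h3.eventually hx
  unfold lapM
  rw [← hcdef, N4.lap_congr (G := g.G c) (H := g.G c) (EventuallyEq.refl _ _) h1]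
  have h4 : ∀ i : Fin n, pd i (fun _ : Eu n => (0 : ℝ)) = fun _ => 0 := fun i => by
    funext y
    exact S1.pd_const235 0 y i
  unfold Lap
  simp [h4]

theorem Lap_smooth {U : Set (Eu n)} (hU : IsOpen U) {G : Eu n → Mt n}
    (hG : ∀ i j, ContDiffOn ℝ ∞ (fun x => G x i j) U) (hd : ∀ x ∈ U, (G x).det ≠ 0)
    {f : Eu n → ℝ} (hf : ContDiffOn ℝ ∞ f U) : ContDiffOn ℝ ∞ (Lap G f) U := by
  unfold Lap
  refine ContDiffOn.sum fun i _ => ContDiffOn.sum fun j _ => (S1.inv_smooth235 hG hd i j).mul ?_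
  refine (S1.pd_smooth235 hU (S1.pd_smooth235 hU hf j) i).sub ?_
  exact ContDiffOn.sum fun k _ => (S1.Gam_smooth235 hU hG hd k i j).mul (S1.pd_smooth235 hU hf k)

theorem lapM_cont (g : RMetric n X.M) {h : X.M → ℝ} (hh : ContMDiff 𝓘(ℝ, Eu n) 𝓘(ℝ, ℝ) ∞ h) :
    Continuous (lapM g h) := by
  rw [continuous_iff_continuousAt]
  intro x
  have hc : chartAt (Eu n) x ∈ atlas (Eu n) X.M := chart_mem_atlas (Eu n) x
  have hxc : x ∈ (chartAt (Eu n) x).source := mem_chart_source (Eu n) x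
  have h1 : ContinuousAt (Lap (g.G (chartAt (Eu n) x)) (fun y => h ((chartAt (Eu n) x).symm y)))
      (chartAt (Eu n) x x) :=
    ((Lap_smooth (chartAt (Eu n) x).open_target (g.smooth _ hc)
      (fun y hy => (g.posDef _ hc y hy).det_pos.ne') (comp_symm hh hc)).continuousOn).continuousAt
      ((chartAt (Eu n) x).open_target.mem_nhds ((chartAt (Eu n) x).map_source hxc))
  have h2 := ContinuousAt.comp (f := chartAt (Eu n) x) h1 ((chartAt (Eu n) x).continuousAt hxc)
  refine h2.congr ?_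
  filter_upwards [(chartAt (Eu n) x).open_source.mem_nhds hxc] with y hy
  exact (lapM_chart g hh hc hy).symm

/-- the Laplacian of a function supported in a chart has integral zero -/
theorem int_lapM_supp (g : RMetric n X.M) {k : X.M → ℝ} (hk : ContMDiff 𝓘(ℝ, Eu n) 𝓘(ℝ, ℝ) ∞ k)
    {e : OpenPartialHomeomorph X.M (Eu n)} (he : e ∈ atlas (Eu n) X.M) (hs : tsupport k ⊆ e.source)
    {μ : Measure X.M} (hμ : g.IsVolume μ) : ∫ x, lapM g k x ∂μ = 0 := by
  have hz : ∀ x, x ∉ tsupport k → lapM g k x = 0 := by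
    intro x hx
    apply lapM_zero
    have h1 : (tsupport k)ᶜ ∈ 𝓝 x := (isClosed_tsupport k).isOpen_compl.mem_nhds hx
    filter_upwards [h1] with y hy
    exact image_eq_zero_of_notMem_tsupport hy
  have h1 : ∫ x, lapM g k x ∂μ = ∫ x in e.source, lapM g k x ∂μ := by
    rw [setIntegral_eq_integral_of_forall_compl_eq_zero]
    intro x hx
    exact hz x fun h => hx (hs h)
  rw [h1, MD.int_chart g hμ he subset_rfl e.open_source.measurableSet (lapM_cont g hk),
    e.image_source_eq_target]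
  set f : Eu n → ℝ := fun y => k (e.symm y) with hf
  have hfs : ContDiffOn ℝ ∞ f e.target := comp_symm hk he
  have hpd : ∀ y ∈ e.target, (g.G e y).PosDef := g.posDef e he
  have hgd : ∀ a, ContDiffOn ℝ ∞ (gradD (g.G e) f a) e.target := fun a =>
    gradD_smooth e.open_target (g.smooth e he) hpd hfs a
  set K : Set (Eu n) := e '' tsupport k with hK
  have hKc : IsCompact K := ((isClosed_tsupport k).isCompact).image_of_continuousOn
    (e.continuousOn.mono hs)
  have hKt : K ⊆ e.target := by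
    rintro _ ⟨x, hx, rfl⟩
    exact e.map_source (hs hx)
  have hfz : ∀ y ∈ e.target, y ∉ K → f =ᶠ[𝓝 y] fun _ => 0 := by
    intro y hy hyK
    filter_upwards [(e.open_target.inter hKc.isClosed.isOpen_compl).mem_nhds ⟨hy, hyK⟩] with z hz
    show k (e.symm z) = 0
    exact image_eq_zero_of_notMem_tsupport fun h => hz.2 ⟨e.symm z, h, e.right_inv hz.1⟩
  have hgz : ∀ y ∈ e.target, y ∉ K → ∀ a, gradD (g.G e) f a y = 0 := by
    intro y hy hyK a
    unfold gradD
    have h2 : ∀ b, pd b f y = 0 := fun b => by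
      rw [S1.pd_congr235 (hfz y hy hyK) b, S1.pd_const235]
    simp [h2]
  set V : Fin n → Eu n → ℝ := fun a => e.target.indicator (gradD (g.G e) f a) with hV
  have hVz : ∀ a, ∀ y, y ∉ K → V a =ᶠ[𝓝 y] fun _ => 0 := by
    intro a y hy
    filter_upwards [hKc.isClosed.isOpen_compl.mem_nhds hy] with z hz
    simp only [hV]
    by_cases hzt : z ∈ e.target
    · rw [Set.indicator_of_mem hzt, hgz z hzt hz]
    · rw [Set.indicator_of_notMem hzt]
  have hVe : ∀ a, ∀ y ∈ e.target, V a =ᶠ[𝓝 y] gradD (g.G e) f a := by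
    intro a y hy
    filter_upwards [e.open_target.mem_nhds hy] with z hz
    simp only [hV]
    rw [Set.indicator_of_mem hz]
  have hVs : ∀ a, ContDiff ℝ ∞ (V a) := by
    intro a
    rw [contDiff_iff_contDiffAt]
    intro y
    by_cases hy : y ∈ e.target
    · exact ((hgd a).contDiffAt (e.open_target.mem_nhds hy)).congr_of_eventuallyEq (hVe a y hy)
    · exact contDiffAt_const.congr_of_eventuallyEq (hVz a y fun h => hy (hKt h))
  have hVc : ∀ a, HasCompactSupport (V a) := by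
    intro a
    refine HasCompactSupport.intro hKc fun y hy => ?_
    exact (hVz a y hy).self_of_nhds
  have h2 : ∀ y ∈ e.target, lapM g k (e.symm y) * Real.sqrt (g.G e y).det = ∑ a, pd a (V a) y := by
    intro y hy
    rw [lapM_chart g hk he (e.map_target hy), e.right_inv hy,
      lap_div e.open_target (g.smooth e he) hpd hfs hy]
    refine Finset.sum_congr rfl fun a _ => ?_
    exact (S1.pd_congr235 (hVe a y hy) a).symm
  rw [setIntegral_congr_fun e.open_target.measurableSet h2]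
  have h3 : ∫ y in e.target, ∑ a, pd a (V a) y = ∫ y, ∑ a, pd a (V a) y := by
    rw [setIntegral_eq_integral_of_forall_compl_eq_zero]
    intro y hy
    refine Finset.sum_eq_zero fun a _ => ?_
    rw [S1.pd_congr235 (hVz a y fun h => hy (hKt h)) a, S1.pd_const235]
  rw [h3, integral_finsetSum _ fun a _ => (integral_pd (hVs a) (hVc a) a).1]
  exact Finset.sum_eq_zero fun a _ => (integral_pd (hVs a) (hVc a) a).2

theorem Lap_sum {ι : Type*} (s : Finset ι) {U : Set (Eu n)} (hU : IsOpen U) (G : Eu n → Mt n)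
    {F : ι → Eu n → ℝ} (hF : ∀ a ∈ s, ContDiffOn ℝ ∞ (F a) U) {x : Eu n} (hx : x ∈ U) :
    Lap G (fun y => ∑ a ∈ s, F a y) x = ∑ a ∈ s, Lap G (F a) x := by
  have h1 : ∀ j, ∀ y ∈ U, pd j (fun y => ∑ a ∈ s, F a y) y = ∑ a ∈ s, pd j (F a) y := fun j y hy =>
    S1.pd_sum235 s (fun a ha => S1.diffAt235 hU (hF a ha) hy) j
  have h2 : ∀ i j, pd i (pd j (fun y => ∑ a ∈ s, F a y)) x = ∑ a ∈ s, pd i (pd j (F a)) x := by
    intro i j
    rw [S1.pd_congr235 (g := fun y => ∑ a ∈ s, pd j (F a) y) _ i,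
      S1.pd_sum235 s (fun a ha => S1.diffAt235 hU (S1.pd_smooth235 hU (hF a ha) j) hx) i]
    filter_upwards [hU.mem_nhds hx] with y hy
    exact h1 j y hy
  unfold Lap
  simp only [h2, h1 _ x hx]
  symm
  rw [Finset.sum_comm]
  refine Finset.sum_congr rfl fun i _ => ?_
  rw [Finset.sum_comm]
  refine Finset.sum_congr rfl fun j _ => ?_
  rw [← Finset.mul_sum, Finset.sum_sub_distrib]
  congr 2
  rw [Finset.sum_comm]
  refine Finset.sum_congr rfl fun k _ => ?_
  rw [Finset.mul_sum]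

theorem lapM_sum {ι : Type*} (s : Finset ι) (g : RMetric n X.M) {F : ι → X.M → ℝ}
    (hF : ∀ a ∈ s, ContMDiff 𝓘(ℝ, Eu n) 𝓘(ℝ, ℝ) ∞ (F a)) (x : X.M) :
    lapM g (fun y => ∑ a ∈ s, F a y) x = ∑ a ∈ s, lapM g (F a) x := by
  have hc : chartAt (Eu n) x ∈ atlas (Eu n) X.M := chart_mem_atlas (Eu n) x
  exact Lap_sum s (chartAt (Eu n) x).open_target (g.G (chartAt (Eu n) x))
    (F := fun a y => F a ((chartAt (Eu n) x).symm y)) (fun a ha => comp_symm (hF a ha) hc)
    ((chartAt (Eu n) x).map_source (mem_chart_source (Eu n) x))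

/-- the Laplacian of a smooth function has integral zero -/
theorem int_lapM (g : RMetric n X.M) {h : X.M → ℝ} (hh : ContMDiff 𝓘(ℝ, Eu n) 𝓘(ℝ, ℝ) ∞ h)
    {μ : Measure X.M} (hμ : g.IsVolume μ) [IsFiniteMeasure μ] : ∫ x, lapM g h x ∂μ = 0 := by
  classical
  obtain ⟨t, ht⟩ := (isCompact_univ (X := X.M)).elim_nhds_subcover
    (fun c => (chartAt (Eu n) c).source) (fun c _ => chart_source_mem_nhds (Eu n) c)
  obtain ⟨ρ, hρ⟩ := SmoothPartitionOfUnity.exists_isSubordinate 𝓘(ℝ, Eu n) (isClosed_univ (X := X.M))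
    (fun c : t => (chartAt (Eu n) (c : X.M)).source) (fun c => (chartAt (Eu n) (c : X.M)).open_source)
    (by
      intro x hx
      obtain ⟨c, hc, hxc⟩ := Set.mem_iUnion₂.1 (ht.2 hx)
      exact Set.mem_iUnion.2 ⟨⟨c, hc⟩, hxc⟩)
  have hsum : ∀ x, ∑ c : t, ρ c x = 1 := by
    intro x
    rw [← finsum_eq_sum_of_fintype]
    exact ρ.sum_eq_one (Set.mem_univ x)
  have hk : ∀ c : t, ContMDiff 𝓘(ℝ, Eu n) 𝓘(ℝ, ℝ) ∞ (fun x => ρ c x * h x) := fun c =>
    (ρ c).contMDiff.mul hh
  have hh' : h = fun x => ∑ c : t, ρ c x * h x := by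
    funext x
    rw [← Finset.sum_mul, hsum, one_mul]
  have h1 : ∀ x, lapM g h x = ∑ c : t, lapM g (fun x => ρ c x * h x) x := by
    intro x
    conv_lhs => rw [hh']
    exact lapM_sum Finset.univ g (fun c _ => hk c) x
  simp only [h1]
  rw [integral_finsetSum _ fun c _ => (lapM_cont g (hk c)).integrable_of_hasCompactSupport
    (HasCompactSupport.of_compactSpace _)]
  refine Finset.sum_eq_zero fun c _ => ?_
  refine int_lapM_supp g (hk c) (chart_mem_atlas (Eu n) (c : X.M)) ?_ hμ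
  exact (tsupport_mul_subset_left).trans (hρ c)

end Pool.Agent.U920.NF
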