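import Mathlib

/-!
# One-dimensional integrals
-/

set_option autoImplicit false
open MeasureTheory Filter Set

noncomputable section

namespace Pool.Agent.U920.NF

open Real

/-- integration by parts for the functional of the example -/
theorem ibp {a b c d w0 w1 w2 w3 : ℝ → ℝ} (ha : ∀ x, HasDerivAt a (b x) x)
    (hb : ∀ x, HasDerivAt b (c x) x) (hc : ∀ x, HasDerivAt c (d x) x)
    (hw0 : ∀ x, HasDerivAt w0 (w1 x) x) (hw1 : ∀ x, HasDerivAt w1 (w2 x) x)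
    (hw2 : ∀ x, HasDerivAt w2 (w3 x) x) (hd : Continuous d) (hw3 : Continuous w3)
    (pa : a (2 * π) = a 0) (pb : b (2 * π) = b 0) (pc : c (2 * π) = c 0)
    (pw0 : w0 (2 * π) = w0 0) (pw1 : w1 (2 * π) = w1 0) (pw2 : w2 (2 * π) = w2 0) :
    ∫ x in (0 : ℝ)..(2 * π), (w0 x * (2 * b x ^ 3 + 6 * a x * b x * c x + a x ^ 2 * d x
      - 6 * a x ^ 2 * b x ^ 2 - 2 * a x ^ 3 * c x - 10 * a x ^ 4 * b x)
      + 1 / 2 * (w2 x * a x ^ 4) - 2 * (w1 x * a x ^ 5) + 1 / 3 * (w3 x * a x ^ 3)) = 0 := by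
  have ca : Continuous a := continuous_iff_continuousAt.2 fun x => (ha x).continuousAt
  have cb : Continuous b := continuous_iff_continuousAt.2 fun x => (hb x).continuousAt
  have cc : Continuous c := continuous_iff_continuousAt.2 fun x => (hc x).continuousAt
  have cw0 : Continuous w0 := continuous_iff_continuousAt.2 fun x => (hw0 x).continuousAt
  have cw1 : Continuous w1 := continuous_iff_continuousAt.2 fun x => (hw1 x).continuousAt
  have cw2 : Continuous w2 := continuous_iff_continuousAt.2 fun x => (hw2 x).continuousAt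
  rw [intervalIntegral.integral_eq_sub_of_hasDerivAt (f := fun x => w0 x * (2 * a x * b x ^ 2 + a x ^ 2 * c x
    - 2 * a x ^ 3 * b x - 2 * a x ^ 5) - w1 x * (a x ^ 2 * b x - 1 / 2 * a x ^ 4)
    + 1 / 3 * (w2 x * a x ^ 3))]
  · simp only [pa, pb, pc, pw0, pw1, pw2, sub_self]
  · intro x _
    have e1 := ((ha x).const_mul 2).fun_mul ((hb x).fun_pow 2)
    have e2 := ((ha x).fun_pow 2).fun_mul (hc x)
    have e3 := (((ha x).fun_pow 3).const_mul 2).fun_mul (hb x)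
    have e4 := ((ha x).fun_pow 5).const_mul 2
    have e5 := (hw0 x).fun_mul (((e1.fun_add e2).fun_sub e3).fun_sub e4)
    have e6 := (hw1 x).fun_mul ((((ha x).fun_pow 2).fun_mul (hb x)).fun_sub
      (((ha x).fun_pow 4).const_mul (1 / 2)))
    have e7 := ((hw2 x).fun_mul ((ha x).fun_pow 3)).const_mul (1 / 3)
    refine ((e5.fun_sub e6).fun_add e7).congr_deriv ?_
    norm_num
    ring
  · apply Continuous.intervalIntegrable
    fun_prop

/-- the moments of `cos x` and `cos 2x` -/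
def mom (p q : ℕ) : ℝ := ∫ x in (0 : ℝ)..(2 * π), cos x ^ p * cos (2 * x) ^ q

theorem mom_expand (k p q : ℕ) (s t : ℝ) :
    ∫ x in (0 : ℝ)..(2 * π), cos x ^ p * cos (2 * x) ^ q * (s * cos x + t * cos (2 * x)) ^ k =
      ∑ j ∈ Finset.range (k + 1), s ^ j * t ^ (k - j) * (k.choose j : ℝ) * mom (p + j) (q + (k - j)) := by
  unfold mom
  simp only [← intervalIntegral.integral_const_mul]
  rw [← intervalIntegral.integral_finsetSum]
  · congr 1
    funext x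
    rw [add_pow, Finset.mul_sum]
    refine Finset.sum_congr rfl fun j _ => ?_
    rw [pow_add, pow_add, mul_pow, mul_pow]
    ring
  · intro j _
    apply Continuous.intervalIntegrable
    fun_prop

theorem mom22_pos : 0 < mom 2 2 := by
  unfold mom
  apply intervalIntegral.integral_pos Real.two_pi_pos
  · exact (by fun_prop : Continuous fun x : ℝ => cos x ^ 2 * cos (2 * x) ^ 2).continuousOn
  · intro x _
    positivity
  · exact ⟨0, ⟨le_refl _, Real.two_pi_pos.le⟩, by simp⟩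

theorem odd_int {f : ℝ → ℝ} (h : ∀ x, f (2 * π - x) = -f x) : ∫ x in (0 : ℝ)..(2 * π), f x = 0 := by
  have h1 := intervalIntegral.integral_comp_sub_left (a := 0) (b := 2 * π) f (2 * π)
  simp only [h, intervalIntegral.integral_neg, sub_self, sub_zero] at h1
  linarith

theorem cos_refl (x : ℝ) : cos (2 * π - x) = cos x := by
  rw [Real.cos_two_pi_sub]

theorem cos2_refl (x : ℝ) : cos (2 * (2 * π - x)) = cos (2 * x) := by
  rw [show 2 * (2 * π - x) = 2 * π - (2 * x) + 2 * π by ring, Real.cos_add_two_pi, Real.cos_two_pi_sub]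

theorem sin_refl (x : ℝ) : sin (2 * π - x) = -sin x := by
  rw [Real.sin_two_pi_sub]

theorem sin2_refl (x : ℝ) : sin (2 * (2 * π - x)) = -sin (2 * x) := by
  rw [show 2 * (2 * π - x) = 2 * π - (2 * x) + 2 * π by ring, Real.sin_add_two_pi, Real.sin_two_pi_sub]

/-- the function `φ` and its derivatives -/
def ph (s t x : ℝ) : ℝ := s * sin x + t * (1 / 2 * sin (2 * x))
def ph1 (s t x : ℝ) : ℝ := s * cos x + t * cos (2 * x)
def ph2 (s t x : ℝ) : ℝ := -(s * sin x) - 2 * (t * sin (2 * x))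
def ph3 (s t x : ℝ) : ℝ := -(s * cos x) - 4 * (t * cos (2 * x))
def ph4 (s t x : ℝ) : ℝ := s * sin x + 8 * (t * sin (2 * x))

theorem hs2 (x : ℝ) : HasDerivAt (fun y => sin (2 * y)) (2 * cos (2 * x)) x := by
  have := (Real.hasDerivAt_sin (2 * x)).comp x ((hasDerivAt_id x).const_mul 2)
  refine this.congr_deriv ?_
  ring

theorem hc2 (x : ℝ) : HasDerivAt (fun y => cos (2 * y)) (-(2 * sin (2 * x))) x := by
  have := (Real.hasDerivAt_cos (2 * x)).comp x ((hasDerivAt_id x).const_mul 2)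
  refine this.congr_deriv ?_
  ring

theorem h_ph (s t x : ℝ) : HasDerivAt (ph s t) (ph1 s t x) x := by
  refine (((Real.hasDerivAt_sin x).const_mul s).fun_add
    (((hs2 x).const_mul (1 / 2)).const_mul t)).congr_deriv ?_
  unfold ph1
  ring

theorem h_ph1 (s t x : ℝ) : HasDerivAt (ph1 s t) (ph2 s t x) x := by
  refine (((Real.hasDerivAt_cos x).const_mul s).fun_add ((hc2 x).const_mul t)).congr_deriv ?_
  unfold ph2
  ring

theorem h_ph2 (s t x : ℝ) : HasDerivAt (ph2 s t) (ph3 s t x) x := by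
  refine ((((Real.hasDerivAt_sin x).const_mul s).fun_neg).fun_sub
    (((hs2 x).const_mul t).const_mul 2)).congr_deriv ?_
  unfold ph3
  ring

theorem h_ph3 (s t x : ℝ) : HasDerivAt (ph3 s t) (ph4 s t x) x := by
  refine ((((Real.hasDerivAt_cos x).const_mul s).fun_neg).fun_sub
    (((hc2 x).const_mul t).const_mul 4)).congr_deriv ?_
  unfold ph4
  ring

theorem ph_smooth (s t : ℝ) : ContDiff ℝ ⊤ (ph s t) := by
  unfold ph
  fun_prop

/-- the density of the example for the conformal factor `φ` -/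
def Dn (s t x : ℝ) : ℝ := -80 * (2 * ph2 s t x ^ 3 + 6 * ph1 s t x * ph2 s t x * ph3 s t x
  + ph1 s t x ^ 2 * ph4 s t x - 6 * ph1 s t x ^ 2 * ph2 s t x ^ 2 - 2 * ph1 s t x ^ 3 * ph3 s t x
  - 10 * ph1 s t x ^ 4 * ph2 s t x)

theorem lin4 {f0 f1 f2 f3 g : ℝ → ℝ} (h0 : Continuous f0) (h1 : Continuous f1) (h2 : Continuous f2)
    (h3 : Continuous f3) (a1 a2 a3 : ℝ) (hg : ∫ x in (0 : ℝ)..(2 * π), g x = 0)
    (he : ∀ x, g x = f0 x - a1 * f1 x - a2 * f2 x - a3 * f3 x) :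
    ∫ x in (0 : ℝ)..(2 * π), f0 x = a1 * (∫ x in (0 : ℝ)..(2 * π), f1 x)
      + a2 * (∫ x in (0 : ℝ)..(2 * π), f2 x) + a3 * ∫ x in (0 : ℝ)..(2 * π), f3 x := by
  simp only [he] at hg
  have e1 : IntervalIntegrable (fun x => f0 x - a1 * f1 x - a2 * f2 x) volume 0 (2 * π) :=
    Continuous.intervalIntegrable (by fun_prop) _ _
  have e2 : IntervalIntegrable (fun x => f0 x - a1 * f1 x) volume 0 (2 * π) :=
    Continuous.intervalIntegrable (by fun_prop) _ _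
  have e3 : ∀ (a : ℝ) {f : ℝ → ℝ}, Continuous f →
      IntervalIntegrable (fun x => a * f x) volume 0 (2 * π) := fun a f hf =>
    Continuous.intervalIntegrable (by fun_prop) _ _
  rw [intervalIntegral.integral_sub e1 (e3 a3 h3), intervalIntegral.integral_sub e2 (e3 a2 h2),
    intervalIntegral.integral_sub (h0.intervalIntegrable _ _) (e3 a1 h1),
    intervalIntegral.integral_const_mul, intervalIntegral.integral_const_mul,
    intervalIntegral.integral_const_mul] at hg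
  linarith

theorem int1 (s t : ℝ) : ∫ x in (0 : ℝ)..(2 * π), sin x * Dn s t x =
    -80 * (1 / 3 * (∫ x in (0 : ℝ)..(2 * π), cos x ^ 1 * cos (2 * x) ^ 0 * (s * cos x + t * cos (2 * x)) ^ 3)
      + 2 * ∫ x in (0 : ℝ)..(2 * π), cos x ^ 1 * cos (2 * x) ^ 0 * (s * cos x + t * cos (2 * x)) ^ 5) := by
  have h1 := ibp (h_ph1 s t) (h_ph2 s t) (h_ph3 s t) (w0 := sin) (w1 := cos)
    (w2 := fun x => -sin x) (w3 := fun x => -cos x) Real.hasDerivAt_sin Real.hasDerivAt_cos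
    (fun x => (Real.hasDerivAt_sin x).fun_neg) (by unfold ph4; fun_prop) (by fun_prop)
    (by simp [ph1, show (2 : ℝ) * (2 * π) = 2 * π + 2 * π by ring])
    (by simp [ph2, show (2 : ℝ) * (2 * π) = 2 * π + 2 * π by ring])
    (by simp [ph3, show (2 : ℝ) * (2 * π) = 2 * π + 2 * π by ring]) (by simp) (by simp) (by simp)
  have h2 : ∫ x in (0 : ℝ)..(2 * π), sin x * ph1 s t x ^ 4 = 0 := by
    apply odd_int
    intro x
    unfold ph1
    rw [cos_refl, cos2_refl, sin_refl]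
    ring
  have h3 := lin4 (f0 := fun x => sin x * Dn s t x) (f1 := fun x => sin x * ph1 s t x ^ 4)
    (f2 := fun x => cos x ^ 1 * cos (2 * x) ^ 0 * (s * cos x + t * cos (2 * x)) ^ 5)
    (f3 := fun x => cos x ^ 1 * cos (2 * x) ^ 0 * (s * cos x + t * cos (2 * x)) ^ 3)
    (by unfold Dn ph1 ph2 ph3 ph4; fun_prop) (by unfold ph1; fun_prop) (by fun_prop) (by fun_prop)
    (-80 * (1 / 2)) (-80 * 2) (-80 * (1 / 3))
    (g := fun x => -80 * (sin x * (2 * ph2 s t x ^ 3 + 6 * ph1 s t x * ph2 s t x * ph3 s t x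
      + ph1 s t x ^ 2 * ph4 s t x
      - 6 * ph1 s t x ^ 2 * ph2 s t x ^ 2 - 2 * ph1 s t x ^ 3 * ph3 s t x
      - 10 * ph1 s t x ^ 4 * ph2 s t x)
      + 1 / 2 * ((-sin x) * ph1 s t x ^ 4) - 2 * (cos x * ph1 s t x ^ 5)
      + 1 / 3 * ((-cos x) * ph1 s t x ^ 3)))
    (by rw [intervalIntegral.integral_const_mul, h1, mul_zero])
    (by intro x; simp only [Dn, ph1]; ring)
  rw [h3, h2]
  ring

theorem int2 (s t : ℝ) : ∫ x in (0 : ℝ)..(2 * π), 1 / 2 * sin (2 * x) * Dn s t x =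
    -80 * (4 / 3 * (∫ x in (0 : ℝ)..(2 * π), cos x ^ 0 * cos (2 * x) ^ 1 * (s * cos x + t * cos (2 * x)) ^ 3)
      + 2 * ∫ x in (0 : ℝ)..(2 * π), cos x ^ 0 * cos (2 * x) ^ 1 * (s * cos x + t * cos (2 * x)) ^ 5) := by
  have h1 := ibp (h_ph1 s t) (h_ph2 s t) (h_ph3 s t) (w0 := fun x => 1 / 2 * sin (2 * x))
    (w1 := fun x => cos (2 * x))
    (w2 := fun x => -(2 * sin (2 * x))) (w3 := fun x => -(4 * cos (2 * x)))
    (fun x => ((hs2 x).const_mul (1 / 2)).congr_deriv (by ring)) hc2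
    (fun x => (((hs2 x).const_mul 2).fun_neg).congr_deriv (by ring)) (by unfold ph4; fun_prop) (by fun_prop)
    (by simp [ph1, show (2 : ℝ) * (2 * π) = 2 * π + 2 * π by ring])
    (by simp [ph2, show (2 : ℝ) * (2 * π) = 2 * π + 2 * π by ring])
    (by simp [ph3, show (2 : ℝ) * (2 * π) = 2 * π + 2 * π by ring])
    (by simp [show (2 : ℝ) * (2 * π) = 2 * π + 2 * π by ring])
    (by simp [show (2 : ℝ) * (2 * π) = 2 * π + 2 * π by ring])
    (by simp [show (2 : ℝ) * (2 * π) = 2 * π + 2 * π by ring])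
  have h2 : ∫ x in (0 : ℝ)..(2 * π), sin (2 * x) * ph1 s t x ^ 4 = 0 := by
    apply odd_int
    intro x
    unfold ph1
    rw [cos_refl, cos2_refl, sin2_refl]
    ring
  have h3 := lin4 (f0 := fun x => 1 / 2 * sin (2 * x) * Dn s t x)
    (f1 := fun x => sin (2 * x) * ph1 s t x ^ 4)
    (f2 := fun x => cos x ^ 0 * cos (2 * x) ^ 1 * (s * cos x + t * cos (2 * x)) ^ 5)
    (f3 := fun x => cos x ^ 0 * cos (2 * x) ^ 1 * (s * cos x + t * cos (2 * x)) ^ 3)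
    (by unfold Dn ph1 ph2 ph3 ph4; fun_prop) (by unfold ph1; fun_prop) (by fun_prop) (by fun_prop)
    (-80) (-80 * 2) (-80 * (4 / 3))
    (g := fun x => -80 * (1 / 2 * sin (2 * x) * (2 * ph2 s t x ^ 3 + 6 * ph1 s t x * ph2 s t x * ph3 s t x
      + ph1 s t x ^ 2 * ph4 s t x
      - 6 * ph1 s t x ^ 2 * ph2 s t x ^ 2 - 2 * ph1 s t x ^ 3 * ph3 s t x
      - 10 * ph1 s t x ^ 4 * ph2 s t x)
      + 1 / 2 * (-(2 * sin (2 * x)) * ph1 s t x ^ 4) - 2 * (cos (2 * x) * ph1 s t x ^ 5)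
      + 1 / 3 * (-(4 * cos (2 * x)) * ph1 s t x ^ 3)))
    (by rw [intervalIntegral.integral_const_mul, h1, mul_zero])
    (by intro x; simp only [Dn, ph1]; ring)
  rw [h3, h2]
  ring

/-- the two components of the variation of the example, as polynomials -/
theorem int1_poly (s t : ℝ) : ∫ x in (0 : ℝ)..(2 * π), sin x * Dn s t x =
    -80 * (1 / 3 * (s ^ 3 * mom 4 0 + 3 * s ^ 2 * t * mom 3 1 + 3 * s * t ^ 2 * mom 2 2 + t ^ 3 * mom 1 3)
      + 2 * (s ^ 5 * mom 6 0 + 5 * s ^ 4 * t * mom 5 1 + 10 * s ^ 3 * t ^ 2 * mom 4 2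
        + 10 * s ^ 2 * t ^ 3 * mom 3 3 + 5 * s * t ^ 4 * mom 2 4 + t ^ 5 * mom 1 5)) := by
  rw [int1, mom_expand, mom_expand]
  simp [Finset.sum_range_succ, Nat.choose]
  ring

theorem int2_poly (s t : ℝ) : ∫ x in (0 : ℝ)..(2 * π), 1 / 2 * sin (2 * x) * Dn s t x =
    -80 * (4 / 3 * (s ^ 3 * mom 3 1 + 3 * s ^ 2 * t * mom 2 2 + 3 * s * t ^ 2 * mom 1 3 + t ^ 3 * mom 0 4)
      + 2 * (s ^ 5 * mom 5 1 + 5 * s ^ 4 * t * mom 4 2 + 10 * s ^ 3 * t ^ 2 * mom 3 3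
        + 10 * s ^ 2 * t ^ 3 * mom 2 4 + 5 * s * t ^ 4 * mom 1 5 + t ^ 5 * mom 0 6)) := by
  rw [int2, mom_expand, mom_expand]
  simp [Finset.sum_range_succ, Nat.choose]
  ring

theorem hd_poly (c0 c1 c2 c3 c4 c5 c6 x : ℝ) :
    HasDerivAt (fun y : ℝ => c0 + c1 * y + c2 * y ^ 2 + c3 * y ^ 3 + c4 * y ^ 4 + c5 * y ^ 5 + c6 * y ^ 6)
      (c1 + 2 * c2 * x + 3 * c3 * x ^ 2 + 4 * c4 * x ^ 3 + 5 * c5 * x ^ 4 + 6 * c6 * x ^ 5) x := by
  have e1 := ((hasDerivAt_id' x).const_mul c1).const_add c0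
  have e2 := e1.fun_add ((hasDerivAt_pow 2 x).const_mul c2)
  have e3 := e2.fun_add ((hasDerivAt_pow 3 x).const_mul c3)
  have e4 := e3.fun_add ((hasDerivAt_pow 4 x).const_mul c4)
  have e5 := e4.fun_add ((hasDerivAt_pow 5 x).const_mul c5)
  have e6 := e5.fun_add ((hasDerivAt_pow 6 x).const_mul c6)
  refine e6.congr_deriv ?_
  norm_num
  ring

/-- The one-form `a ds + b dt` is not closed, so it has no primitive. -/
theorem no_primitive (K c q1 q2 p11 p12 p22 l1 l2 : ℝ) (hK : K ≠ 0) (E : ℝ → ℝ → ℝ)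
    (h1 : ∀ s t, HasDerivAt (fun s => E s t)
      (K * (∫ x in (0 : ℝ)..(2 * π), sin x * Dn s t x) - c * (q1 + (s * p11 + t * p12)) - l1) s)
    (h2 : ∀ s t, HasDerivAt (fun t => E s t)
      (K * (∫ x in (0 : ℝ)..(2 * π), 1 / 2 * sin (2 * x) * Dn s t x)
        - c * (q2 + (s * p12 + t * p22)) - l2) t) : False := by
  simp only [int1_poly] at h1
  simp only [int2_poly] at h2
  -- antiderivative in `s`
  set A : ℝ → ℝ → ℝ := fun s t => K * (-80 * (1 / 3 * (s ^ 4 / 4 * mom 4 0 + s ^ 3 * t * mom 3 1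
      + 3 * s ^ 2 / 2 * t ^ 2 * mom 2 2 + s * t ^ 3 * mom 1 3)
      + 2 * (s ^ 6 / 6 * mom 6 0 + s ^ 5 * t * mom 5 1 + 5 * s ^ 4 / 2 * t ^ 2 * mom 4 2
        + 10 * s ^ 3 / 3 * t ^ 3 * mom 3 3 + 5 * s ^ 2 / 2 * t ^ 4 * mom 2 4 + s * t ^ 5 * mom 1 5)))
      - c * (q1 * s + (s ^ 2 / 2 * p11 + s * t * p12)) - l1 * s with hA
  have hAs : ∀ s t, HasDerivAt (fun s => A s t) (K * (-80 * (1 / 3 * (s ^ 3 * mom 4 0
      + 3 * s ^ 2 * t * mom 3 1 + 3 * s * t ^ 2 * mom 2 2 + t ^ 3 * mom 1 3)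
      + 2 * (s ^ 5 * mom 6 0 + 5 * s ^ 4 * t * mom 5 1 + 10 * s ^ 3 * t ^ 2 * mom 4 2
        + 10 * s ^ 2 * t ^ 3 * mom 3 3 + 5 * s * t ^ 4 * mom 2 4 + t ^ 5 * mom 1 5)))
      - c * (q1 + (s * p11 + t * p12)) - l1) s := by
    intro s t
    have e := hd_poly 0 (K * (-80 * (1 / 3 * (t ^ 3 * mom 1 3) + 2 * (t ^ 5 * mom 1 5)))
      - c * (q1 + t * p12) - l1)
      (K * (-80 * (1 / 3 * (3 / 2 * t ^ 2 * mom 2 2) + 2 * (5 / 2 * t ^ 4 * mom 2 4))) - c * p11 / 2)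
      (K * (-80) * (1 / 3 * t * mom 3 1 + 2 * (10 / 3) * t ^ 3 * mom 3 3))
      (K * (-80) * (1 / 3 * mom 4 0 / 4 + 2 * (5 / 2) * t ^ 2 * mom 4 2))
      (K * (-80) * 2 * t * mom 5 1) (K * (-80) * 2 * mom 6 0 / 6) s
    refine (e.congr_of_eventuallyEq (Eventually.of_forall fun s => ?_)).congr_deriv (by ring)
    simp only [hA]
    ring
  have hAt : ∀ s t, HasDerivAt (fun t => A s t) (K * (-80 * (1 / 3 * (s ^ 3 * mom 3 1
      + 3 * s ^ 2 * t * mom 2 2 + 3 * s * t ^ 2 * mom 1 3)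
      + 2 * (s ^ 5 * mom 5 1 + 5 * s ^ 4 * t * mom 4 2 + 10 * s ^ 3 * t ^ 2 * mom 3 3
        + 10 * s ^ 2 * t ^ 3 * mom 2 4 + 5 * s * t ^ 4 * mom 1 5)))
      - c * (s * p12)) t := by
    intro s t
    have e := hd_poly (K * (-80 * (1 / 3 * (s ^ 4 / 4 * mom 4 0) + 2 * (s ^ 6 / 6 * mom 6 0)))
      - c * (q1 * s + s ^ 2 / 2 * p11) - l1 * s)
      (K * (-80) * (1 / 3 * s ^ 3 * mom 3 1 + 2 * s ^ 5 * mom 5 1) - c * (s * p12))
      (K * (-80) * (1 / 3 * (3 / 2) * s ^ 2 * mom 2 2 + 2 * (5 / 2) * s ^ 4 * mom 4 2))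
      (K * (-80) * (1 / 3 * s * mom 1 3 + 2 * (10 / 3) * s ^ 3 * mom 3 3))
      (K * (-80) * 2 * (5 / 2) * s ^ 2 * mom 2 4)
      (K * (-80) * 2 * s * mom 1 5) 0 t
    refine (e.congr_of_eventuallyEq (Eventually.of_forall fun t => ?_)).congr_deriv (by ring)
    simp only [hA]
    ring
  have hE : ∀ s t, E s t = A s t + E 0 t := by
    intro s t
    have hd : ∀ s, HasDerivAt (fun s => E s t - A s t) 0 s := fun s =>
      ((h1 s t).fun_sub (hAs s t)).congr_deriv (by ring)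
    have h3 : E s t - A s t = E 0 t - A 0 t :=
      is_const_of_deriv_eq_zero (fun s => (hd s).differentiableAt) (fun s => (hd s).deriv) s 0
    have h4 : A 0 t = 0 := by
      simp only [hA]
      ring
    linarith
  have key : ∀ s t, K * (-80 * (1 / 3 * (s ^ 3 * mom 3 1
      + 3 * s ^ 2 * t * mom 2 2 + 3 * s * t ^ 2 * mom 1 3)
      + 2 * (s ^ 5 * mom 5 1 + 5 * s ^ 4 * t * mom 4 2 + 10 * s ^ 3 * t ^ 2 * mom 3 3
        + 10 * s ^ 2 * t ^ 3 * mom 2 4 + 5 * s * t ^ 4 * mom 1 5)))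
      - c * (s * p12) + (K * (-80 * (4 / 3 * ((0 : ℝ) ^ 3 * mom 3 1 + 3 * (0 : ℝ) ^ 2 * t * mom 2 2
      + 3 * (0 : ℝ) * t ^ 2 * mom 1 3 + t ^ 3 * mom 0 4)
      + 2 * ((0 : ℝ) ^ 5 * mom 5 1 + 5 * (0 : ℝ) ^ 4 * t * mom 4 2 + 10 * (0 : ℝ) ^ 3 * t ^ 2 * mom 3 3
        + 10 * (0 : ℝ) ^ 2 * t ^ 3 * mom 2 4 + 5 * (0 : ℝ) * t ^ 4 * mom 1 5 + t ^ 5 * mom 0 6)))
        - c * (q2 + ((0 : ℝ) * p12 + t * p22)) - l2) =
      K * (-80 * (4 / 3 * (s ^ 3 * mom 3 1 + 3 * s ^ 2 * t * mom 2 2 + 3 * s * t ^ 2 * mom 1 3 + t ^ 3 * mom 0 4)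
      + 2 * (s ^ 5 * mom 5 1 + 5 * s ^ 4 * t * mom 4 2 + 10 * s ^ 3 * t ^ 2 * mom 3 3
        + 10 * s ^ 2 * t ^ 3 * mom 2 4 + 5 * s * t ^ 4 * mom 1 5 + t ^ 5 * mom 0 6)))
        - c * (q2 + (s * p12 + t * p22)) - l2 := by
    intro s t
    have h5 := (hAt s t).fun_add (h2 0 t)
    have h6 : (fun t => A s t + E 0 t) = fun t => E s t := by
      funext t
      exact (hE s t).symm
    rw [h6] at h5
    exact h5.unique (h2 s t)
  have k1 := key 1 1
  have k2 := key 1 (-1)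
  have h7 : K * mom 2 2 = 0 := by
    norm_num at k1 k2
    linarith
  exact mul_ne_zero hK mom22_pos.ne' h7

end Pool.Agent.U920.NF
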