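import Pool.Agent.U920.NF.TorInt2
import Pool.Agent.U920.NF.Trig
import Pool.Agent.U920.NF.Conf1

/-!
# The example has no local conformal primitive modulo `c Q + L`
-/

set_option autoImplicit false
open scoped ContDiff Manifold Topology Matrix
open MeasureTheory Filter Set

noncomputable section

namespace Pool.Agent.U920.NF

open Pool.Agent.QTot

theorem rmetric_ext {n : ℕ} {M : Type} [TopologicalSpace M] [ChartedSpace (Eu n) M]
    {g h : RMetric n M} (H : ∀ e y, g.G e y = h.G e y) : g = h := by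
  obtain ⟨G, h1, h2, h3⟩ := g
  obtain ⟨G', h1', h2', h3'⟩ := h
  have : G = G' := by
    funext e y
    exact H e y
  subst this
  rfl

theorem conf_conf {n : ℕ} {X : ClosedManifold n} (g : RMetric n X.M) (w v : Cinf X) :
    conf (conf g w) v = conf g (w + v) := by
  apply rmetric_ext
  intro e y
  change Real.exp (2 * v (e.symm y)) • Real.exp (2 * w (e.symm y)) • g.G e y =
    Real.exp (2 * (w + v) (e.symm y)) • g.G e y
  rw [smul_smul, ← Real.exp_add]
  congr 2
  change 2 * v (e.symm y) + 2 * w (e.symm y) = 2 * (w (e.symm y) + v (e.symm y))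
  ring

theorem conf_zero {n : ℕ} {X : ClosedManifold n} (g : RMetric n X.M) : conf g 0 = g := by
  apply rmetric_ext
  intro e y
  change Real.exp (2 * (0 : ℝ)) • g.G e y = g.G e y
  simp

/-- a volume measure of `e^{2w}` times the flat metric -/
def vol {n : ℕ} (w : Cinf (TorX n)) : Measure (TorX n).M :=
  (MC.exists_vol (conf (flatM n) w)).choose

theorem vol_spec {n : ℕ} (w : Cinf (TorX n)) : (conf (flatM n) w).IsVolume (vol w) :=
  (MC.exists_vol (conf (flatM n) w)).choose_spec.1

instance vol_fin {n : ℕ} (w : Cinf (TorX n)) : IsFiniteMeasure (vol w) :=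
  (MC.exists_vol (conf (flatM n) w)).choose_spec.2

theorem proj_eq {x z : Eu 6} (h : proj z = proj x) : ∃ k : ℤ, x 0 = z 0 + k * (2 * Real.pi) := by
  have h1 : ((z 0 : ℝ) : AddCircle (2 * Real.pi)) = ((x 0 : ℝ) : AddCircle (2 * Real.pi)) :=
    congrFun h 0
  have h2 := (QuotientAddGroup.eq (s := AddSubgroup.zmultiples (2 * Real.pi))).1 h1
  obtain ⟨k, hk⟩ := AddSubgroup.mem_zmultiples_iff.1 h2
  refine ⟨k, ?_⟩
  rw [zsmul_eq_mul] at hk
  linarith

/-- the function `sin x_0` on the torus -/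
def om1 : Cinf (TorX 6) := desc (fun y => Real.sin (y 0)) (by fun_prop) (by
  intro x z h
  obtain ⟨k, hk⟩ := proj_eq h
  rw [hk, Real.sin_add_int_mul_two_pi])

/-- the function `(1/2) sin 2 x_0` on the torus -/
def om2 : Cinf (TorX 6) := desc (fun y => 1 / 2 * Real.sin (2 * y 0)) (by fun_prop) (by
  intro x z h
  obtain ⟨k, hk⟩ := proj_eq h
  rw [hk, show 2 * (z 0 + k * (2 * Real.pi)) = 2 * z 0 + ((2 * k : ℤ) : ℝ) * (2 * Real.pi) by
    push_cast; ring, Real.sin_add_int_mul_two_pi])

theorem om1_proj (y : Eu 6) : om1 (proj y) = Real.sin (y 0) := desc_proj _ _ _ y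

theorem om2_proj (y : Eu 6) : om2 (proj y) = 1 / 2 * Real.sin (2 * y 0) := desc_proj _ _ _ y

/-- the conformal factor -/
def W (s t : ℝ) : Cinf (TorX 6) := s • om1 + t • om2

theorem W_proj (s t : ℝ) (y : Eu 6) : W s t (proj y) = ph s t (y 0) := by
  have h1 : W s t (proj y) = s * om1 (proj y) + t * om2 (proj y) := rfl
  rw [h1, om1_proj, om2_proj]
  rfl

theorem Gw_W (s t : ℝ) : Gw (W s t) = G1 (ph s t) := by
  funext y
  unfold Gw G1
  rw [W_proj]

theorem W_s (s t ε : ℝ) : W s t + ε • om1 = W (s + ε) t := by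
  unfold W
  rw [add_smul]
  abel

theorem W_t (s t ε : ℝ) : W s t + ε • om2 = W s (t + ε) := by
  unfold W
  rw [add_smul]
  abel

theorem at_sEx_W (s t : ℝ) (y : Eu 6) :
    sEx.at (Gw (W s t)) y * Real.exp (6 * W s t (proj y)) = Dn s t (y 0) := by
  rw [Gw_W, W_proj]
  exact at_sEx_G1 ((ph_smooth s t).of_le le_top) (h_ph s t) (h_ph1 s t) (h_ph2 s t) (h_ph3 s t) y

theorem w_cont {n : ℕ} (v : Cinf (TorX n)) : Continuous (v : (TorX n).M → ℝ) := v.contMDiff.continuous

theorem sval_contX {n : ℕ} (s : NS) (w : Cinf (TorX n)) :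
    Continuous (sval s (conf (flatM n) w) : (TorX n).M → ℝ) := sval_cont s w

/-- change of the volume -/
theorem int_vol (w : Cinf (TorX 6)) {f : (TorX 6).M → ℝ} (hf : Continuous f) :
    ∫ x, f x ∂(vol w) = ∫ x : (TorX 6).M, f x * Real.exp (6 * w x) ∂(vol 0) := by
  have h1 : Continuous fun x : (TorX 6).M => f x * Real.exp (6 * w x) :=
    hf.mul (Real.continuous_exp.comp (continuous_const.mul (w_cont w)))
  refine (int_conf w (vol_spec w) hf).trans ?_
  refine Eq.trans ?_ (int_conf 0 (vol_spec 0) h1).symm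
  congr 1
  funext y
  have h2 : (0 : Cinf (TorX 6)) (proj y) = 0 := rfl
  rw [h2]
  norm_num

theorem int_S1 (s t : ℝ) :
    ∫ x : (TorX 6).M, om1 x * sval sEx (conf (flatM 6) (W s t)) x ∂(vol (W s t)) =
      (2 * Real.pi) ^ 5 * ∫ x in (0 : ℝ)..(2 * Real.pi), Real.sin x * Dn s t x := by
  have hf : Continuous fun x : (TorX 6).M => om1 x * sval sEx (conf (flatM 6) (W s t)) x :=
    (w_cont om1).mul (sval_contX sEx (W s t))
  refine (int_conf (W s t) (vol_spec (W s t)) hf).trans ?_
  rw [← int_box]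
  congr 1
  funext y
  rw [sval_tor', om1_proj, mul_assoc]
  congr 1
  exact at_sEx_W s t y

theorem int_S2 (s t : ℝ) :
    ∫ x : (TorX 6).M, om2 x * sval sEx (conf (flatM 6) (W s t)) x ∂(vol (W s t)) =
      (2 * Real.pi) ^ 5 * ∫ x in (0 : ℝ)..(2 * Real.pi), 1 / 2 * Real.sin (2 * x) * Dn s t x := by
  have hf : Continuous fun x : (TorX 6).M => om2 x * sval sEx (conf (flatM 6) (W s t)) x :=
    (w_cont om2).mul (sval_contX sEx (W s t))
  refine (int_conf (W s t) (vol_spec (W s t)) hf).trans ?_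
  rw [← int_box]
  congr 1
  funext y
  rw [sval_tor', om2_proj, mul_assoc]
  congr 1
  exact at_sEx_W s t y

theorem sval_flat {n : ℕ} (s : NS) (p : Tor n) :
    sval s (flatM n) p = s.at (fun _ => (1 : Mt n)) (lift p) := by
  have h1 : sval s (flatM n) p = s.at (fun _ => (1 : Mt n)) ((cube (lift p)).symm p) := rfl
  rw [h1, cube_symm_self]

theorem L_law {L : NS} (hL : IsLocalConfInv 6 L) (w : Cinf (TorX 6)) (p : (TorX 6).M) :
    Real.exp (6 * w p) * sval L (conf (flatM 6) w) p = sval L (flatM 6) p := by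
  have h1 := hL univ isOpen_univ (fun _ => (1 : Mt 6)) (fun i j => contDiffOn_const)
    (fun y _ => Matrix.PosDef.one) (fun y => w (proj y)) (w_smooth w).contDiffOn (lift p) (mem_univ _)
  rw [sval_tor, sval_flat, ← h1, proj_lift]
  rfl

theorem flat_cont (s : NS) : Continuous (sval s (flatM 6) : (TorX 6).M → ℝ) := by
  have h := sval_contX s (0 : Cinf (TorX 6))
  rw [conf_zero] at h
  exact h

theorem cont_int {f : (TorX 6).M → ℝ} (hf : Continuous f) (w : Cinf (TorX 6)) :
    Integrable f (vol w : Measure (TorX 6).M) := by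
  exact hf.integrable_of_hasCompactSupport (HasCompactSupport.of_compactSpace _)

/-- the decomposition of the variation at conformally flat metrics -/
theorem decomp (c : ℝ) {Q L : NS} (P : Cinf (TorX 6) →ₗ[ℝ] ((TorX 6).M → ℝ))
    (hlaw : ∀ (w : Cinf (TorX 6)) (x : (TorX 6).M),
      Real.exp ((6 : ℕ) * w x) * sval Q (conf (flatM 6) w) x = sval Q (flatM 6) x + P w x)
    (hL : IsLocalConfInv 6 L) (w v : Cinf (TorX 6)) :
    ∫ x : (TorX 6).M, v x * sval (.add sEx (.add (.smul (-c) Q) (.smul (-1) L))) (conf (flatM 6) w) x ∂(vol w) =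
      (∫ x : (TorX 6).M, v x * sval sEx (conf (flatM 6) w) x ∂(vol w))
      - c * ((∫ x : (TorX 6).M, v x * sval Q (flatM 6) x ∂(vol 0)) + ∫ x : (TorX 6).M, v x * P w x ∂(vol 0))
      - ∫ x : (TorX 6).M, v x * sval L (flatM 6) x ∂(vol 0) := by
  have cv := w_cont v
  have cw := w_cont w
  have cA : Continuous fun x : (TorX 6).M => v x * sval sEx (conf (flatM 6) w) x := cv.mul (sval_contX sEx w)
  have cB : Continuous fun x : (TorX 6).M => v x * sval Q (conf (flatM 6) w) x := cv.mul (sval_contX Q w)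
  have cC : Continuous fun x : (TorX 6).M => v x * sval L (conf (flatM 6) w) x := cv.mul (sval_contX L w)
  have hPw : ∀ x : (TorX 6).M, P w x =
      Real.exp (6 * w x) * sval Q (conf (flatM 6) w) x - sval Q (flatM 6) x := by
    intro x
    have := hlaw w x
    push_cast at this
    linarith
  have cP : Continuous fun x : (TorX 6).M => v x * P w x := by
    simp only [hPw]
    exact cv.mul (((Real.continuous_exp.comp (continuous_const.mul cw)).mul (sval_contX Q w)).sub
      (flat_cont Q))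
  have cQ0 : Continuous fun x : (TorX 6).M => v x * sval Q (flatM 6) x := cv.mul (flat_cont Q)
  have e1 : ∫ x : (TorX 6).M, v x * sval (.add sEx (.add (.smul (-c) Q) (.smul (-1) L)))
      (conf (flatM 6) w) x ∂(vol w) = (∫ x : (TorX 6).M, v x * sval sEx (conf (flatM 6) w) x ∂(vol w))
      - c * (∫ x : (TorX 6).M, v x * sval Q (conf (flatM 6) w) x ∂(vol w))
      - ∫ x : (TorX 6).M, v x * sval L (conf (flatM 6) w) x ∂(vol w) := by
    have cAB : Continuous fun x : (TorX 6).M => v x * sval sEx (conf (flatM 6) w) x -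
        c * (v x * sval Q (conf (flatM 6) w) x) := cA.sub (continuous_const.mul cB)
    rw [← integral_const_mul, ← integral_sub (cont_int cA w) ((cont_int cB w).const_mul c),
      ← integral_sub (cont_int cAB w) (cont_int cC w)]
    congr 1
    funext x
    have e2 : sval (.add sEx (.add (.smul (-c) Q) (.smul (-1) L))) (conf (flatM 6) w) x =
        sval sEx (conf (flatM 6) w) x + ((-c) * sval Q (conf (flatM 6) w) x +
          (-1) * sval L (conf (flatM 6) w) x) := rfl
    rw [e2]
    ring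
  have e3 : ∫ x : (TorX 6).M, v x * sval Q (conf (flatM 6) w) x ∂(vol w) =
      (∫ x : (TorX 6).M, v x * sval Q (flatM 6) x ∂(vol 0)) + ∫ x : (TorX 6).M, v x * P w x ∂(vol 0) := by
    rw [int_vol w cB, ← integral_add (cont_int cQ0 0) (cont_int cP 0)]
    congr 1
    funext x
    rw [hPw]
    ring
  have e4 : ∫ x : (TorX 6).M, v x * sval L (conf (flatM 6) w) x ∂(vol w) =
      ∫ x : (TorX 6).M, v x * sval L (flatM 6) x ∂(vol 0) := by
    rw [int_vol w cC]
    congr 1
    funext x
    rw [← L_law hL w x]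
    ring
  rw [e1, e3, e4]

/-- the primitive functional along the two-parameter family -/
def En (f : NS) (s t : ℝ) : ℝ := ∫ x, sval f (conf (flatM 6) (W s t)) x ∂(vol (W s t))

theorem shift_deriv {h : ℝ → ℝ} {d s : ℝ} (H : HasDerivAt (fun ε => h (s + ε)) d 0) :
    HasDerivAt h d s := by
  have h1 : HasDerivAt (fun ε => h (s + ε)) d (-s + s) := by
    rw [neg_add_cancel]
    exact H
  have h2 := h1.comp_const_add (-s) s
  refine h2.congr_of_eventuallyEq (Eventually.of_forall fun x => ?_)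
  show h x = h (s + (-s + x))
  congr 1
  ring

theorem prim_deriv {f s' : NS}
    (hf : ∀ (X : ClosedManifold 6) (g : RMetric 6 X.M) (w : Cinf X) (μ : ℝ → Measure X.M),
    (∀ ε : ℝ, (conf g (ε • w)).IsVolume (μ ε)) →
      HasDerivAt (fun ε : ℝ => ∫ x, sval f (conf g (ε • w)) x ∂(μ ε))
        (∫ x, w x * sval s' g x ∂(μ 0)) 0) (w v : Cinf (TorX 6)) :
    HasDerivAt (fun ε : ℝ => ∫ x, sval f (conf (flatM 6) (w + ε • v)) x ∂(vol (w + ε • v)))
      (∫ x, v x * sval s' (conf (flatM 6) w) x ∂(vol w)) 0 := by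
  have h1 := hf (TorX 6) (conf (flatM 6) w) v (fun ε => vol (w + ε • v)) (fun ε => by
    rw [conf_conf]
    exact vol_spec _)
  simp only [conf_conf] at h1
  have h2 : w + (0 : ℝ) • v = w := by rw [zero_smul, add_zero]
  rw [h2] at h1
  exact h1

theorem no_prim (c : ℝ) (Q L : NS) (hQ : IsQCurvature 6 Q) (hL : IsLocalConfInv 6 L) :
    ¬ HasPrimitive 6 (.add sEx (.add (.smul (-c) Q) (.smul (-1) L))) := by
  rintro ⟨f, hf⟩
  obtain ⟨P, hsym, hlaw⟩ := hQ (TorX 6) (flatM 6)
  have hv0 : (flatM 6).IsVolume (vol (0 : Cinf (TorX 6))) := by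
    have h := vol_spec (0 : Cinf (TorX 6))
    rwa [conf_zero] at h
  have hlaw' : ∀ (w : Cinf (TorX 6)) (x : (TorX 6).M),
      Real.exp ((6 : ℕ) * w x) * sval Q (conf (flatM 6) w) x = sval Q (flatM 6) x + P w x := hlaw
  have cP : ∀ v w : Cinf (TorX 6), Continuous fun x : (TorX 6).M => v x * P w x := by
    intro v w
    have hPw : ∀ x : (TorX 6).M, P w x =
        Real.exp (6 * w x) * sval Q (conf (flatM 6) w) x - sval Q (flatM 6) x := by
      intro x
      have := hlaw' w x
      push_cast at this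
      linarith
    simp only [hPw]
    exact (w_cont v).mul (((Real.continuous_exp.comp (continuous_const.mul (w_cont w))).mul
      (sval_contX Q w)).sub (flat_cont Q))
  have hPW : ∀ (v : Cinf (TorX 6)) (s t : ℝ), ∫ x : (TorX 6).M, v x * P (W s t) x ∂(vol 0) =
      s * (∫ x : (TorX 6).M, v x * P om1 x ∂(vol 0)) + t * ∫ x : (TorX 6).M, v x * P om2 x ∂(vol 0) := by
    intro v s t
    rw [← integral_const_mul, ← integral_const_mul, ← integral_add
      ((cont_int (cP v om1) 0).const_mul s) ((cont_int (cP v om2) 0).const_mul t)]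
    congr 1
    funext x
    have h1 : P (W s t) = s • P om1 + t • P om2 := by
      unfold W
      rw [map_add, map_smul, map_smul]
    rw [h1]
    change v x * (s * P om1 x + t * P om2 x) = _
    ring
  refine no_primitive ((2 * Real.pi) ^ 5) c
    (∫ x : (TorX 6).M, om1 x * sval Q (flatM 6) x ∂(vol 0))
    (∫ x : (TorX 6).M, om2 x * sval Q (flatM 6) x ∂(vol 0))
    (∫ x : (TorX 6).M, om1 x * P om1 x ∂(vol 0))
    (∫ x : (TorX 6).M, om1 x * P om2 x ∂(vol 0))
    (∫ x : (TorX 6).M, om2 x * P om2 x ∂(vol 0))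
    (∫ x : (TorX 6).M, om1 x * sval L (flatM 6) x ∂(vol 0))
    (∫ x : (TorX 6).M, om2 x * sval L (flatM 6) x ∂(vol 0))
    (by positivity) (En f) ?_ ?_
  · intro s t
    have h1 := prim_deriv hf (W s t) om1
    simp only [W_s] at h1
    have h2 : HasDerivAt (fun s => En f s t)
        (∫ x : (TorX 6).M, om1 x * sval (.add sEx (.add (.smul (-c) Q) (.smul (-1) L)))
          (conf (flatM 6) (W s t)) x ∂(vol (W s t))) s := shift_deriv h1
    rw [decomp c P hlaw' hL (W s t) om1, int_S1, hPW] at h2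
    exact h2
  · intro s t
    have h1 := prim_deriv hf (W s t) om2
    simp only [W_t] at h1
    have h2 : HasDerivAt (fun t => En f s t)
        (∫ x : (TorX 6).M, om2 x * sval (.add sEx (.add (.smul (-c) Q) (.smul (-1) L)))
          (conf (flatM 6) (W s t)) x ∂(vol (W s t))) t := shift_deriv h1
    rw [decomp c P hlaw' hL (W s t) om2, int_S2, hPW, hsym _ hv0 om2 om1] at h2
    exact h2

end Pool.Agent.U920.NF
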