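import Pool.Agent.U920.NF.Torus

/-!
# Natural scalars of conformally flat metrics on the torus, and integrals over the torus
-/

set_option autoImplicit false
open scoped ContDiff Manifold Topology Matrix
open MeasureTheory Filter Set

noncomputable section

namespace Pool.Agent.U920.NF

open Pool.Agent.QTot

variable {n : ℕ}

/-- the matrix field on `ℝ^n` of the conformally flat metric of the torus -/
def Gw (w : Cinf (TorX n)) (y : Eu n) : Mt n := Real.exp (2 * w (proj y)) • (1 : Mt n)

theorem w_smooth (w : Cinf (TorX n)) : ContDiff ℝ ∞ fun y : Eu n => w (proj y) := by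
  rw [contDiff_iff_contDiffAt]
  intro x
  have h1 := smooth_symm (X := TorX n) w (mem_atlas x)
  have h2 : x ∈ ((cube x).symm).target := mem_cube x
  exact h1.contDiffAt (((cube x).symm).open_target.mem_nhds h2)

theorem Gw_apply (w : Cinf (TorX n)) (y : Eu n) (i j : Fin n) :
    Gw w y i j = Real.exp (2 * w (proj y)) * (if i = j then 1 else 0) := by
  simp [Gw, Matrix.one_apply]

theorem Gw_smooth (w : Cinf (TorX n)) (i j : Fin n) :
    ContDiffOn ℝ ∞ (fun y => Gw w y i j) univ := by
  have h1 : (fun y => Gw w y i j) =
      fun y : Eu n => Real.exp (2 * w (proj y)) * (if i = j then 1 else 0) := by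
    funext y
    rw [Gw_apply]
  rw [h1]
  exact (((contDiff_const.mul (w_smooth w)).exp).mul contDiff_const).contDiffOn

theorem Gw_posDef (w : Cinf (TorX n)) (y : Eu n) : (Gw w y).PosDef :=
  Matrix.PosDef.one.smul (Real.exp_pos _)

theorem Gw_at_smooth (s : NS) (w : Cinf (TorX n)) : ContDiff ℝ ∞ (s.at (Gw w)) := by
  rw [← contDiffOn_univ]
  exact val_smooth isOpen_univ (Gw_smooth w) (fun y _ => (Gw_posDef w y).det_pos.ne') s ![]

theorem Gw_at_per (s : NS) (w : Cinf (TorX n)) {x z : Eu n} (h : proj z = proj x) :
    s.at (Gw w) z = s.at (Gw w) x := by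
  have h1 := at_trans (z - x) (Gw w) s x
  have h2 : (fun y => Gw w (y + (z - x))) = Gw w := by
    funext y
    unfold Gw
    rw [proj_add h]
  rw [h2] at h1
  rw [h1]
  congr 1
  abel

theorem cube_symm_self (p : Tor n) : (cube (lift p)).symm p = lift p := by
  have h1 := (cube (lift p)).left_inv (mem_cube (lift p))
  rw [cube_apply, proj_lift] at h1
  exact h1

theorem sval_tor (s : NS) (w : Cinf (TorX n)) (p : Tor n) :
    sval s (conf (flatM n) w) p = s.at (Gw w) (lift p) := by
  have h1 : sval s (conf (flatM n) w) p = s.at (Gw w) ((cube (lift p)).symm p) := rfl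
  rw [h1, cube_symm_self]

theorem sval_tor' (s : NS) (w : Cinf (TorX n)) (x : Eu n) :
    sval s (conf (flatM n) w) (proj x) = s.at (Gw w) x := by
  rw [sval_tor]
  exact Gw_at_per s w (proj_lift (proj x))

/-- a function on the torus is continuous if its composition with the projection is -/
theorem cont_of_proj {f : Tor n → ℝ} (h : Continuous fun x : Eu n => f (proj x)) : Continuous f := by
  rw [continuous_iff_continuousAt]
  intro p
  have hp : p ∈ (cube (lift p)).target := by
    have := (cube (lift p)).map_source (mem_cube (lift p))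
    rwa [cube_apply, proj_lift] at this
  have h1 : ContinuousAt (fun q => f (proj ((cube (lift p)).symm q))) p :=
    ContinuousAt.comp (g := fun x : Eu n => f (proj x)) h.continuousAt
      ((cube (lift p)).continuousAt_symm hp)
  refine h1.congr ?_
  filter_upwards [(cube (lift p)).open_target.mem_nhds hp] with q hq
  rw [← cube_apply (lift p), (cube (lift p)).right_inv hq]

theorem sval_cont (s : NS) (w : Cinf (TorX n)) :
    Continuous (sval s (conf (flatM n) w) : Tor n → ℝ) := by
  apply cont_of_proj
  simp only [sval_tor']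
  exact (Gw_at_smooth s w).continuous

/-- a smooth periodic function on `ℝ^n` as a smooth function on the torus -/
def desc (F : Eu n → ℝ) (hF : ContDiff ℝ ∞ F) (hp : ∀ x z : Eu n, proj z = proj x → F z = F x) :
    Cinf (TorX n) :=
  ⟨fun p : Tor n => F (lift p), by
    intro p
    have hp1 : p ∈ (cube (lift p)).target := by
      have := (cube (lift p)).map_source (mem_cube (lift p))
      rwa [cube_apply, proj_lift] at this
    have h2 : ContMDiffOn 𝓘(ℝ, Eu n) 𝓘(ℝ, Eu n) ∞ ((cube (lift p)).symm : Tor n → Eu n)
        (cube (lift p)).target :=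
      contMDiffOn_of_mem_maximalAtlas (IsManifold.subset_maximalAtlas (mem_atlas (lift p)))
    have h3 : ContMDiffOn 𝓘(ℝ, Eu n) 𝓘(ℝ, ℝ) ∞ (fun q : Tor n => F ((cube (lift p)).symm q))
        (cube (lift p)).target := hF.contMDiff.comp_contMDiffOn h2
    refine (h3.contMDiffAt ((cube (lift p)).open_target.mem_nhds hp1)).congr_of_eventuallyEq ?_
    filter_upwards [(cube (lift p)).open_target.mem_nhds hp1] with q hq
    apply hp
    rw [proj_lift, ← cube_apply (lift p), (cube (lift p)).right_inv hq]⟩

theorem desc_proj (F : Eu n → ℝ) (hF : ContDiff ℝ ∞ F)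
    (hp : ∀ x z : Eu n, proj z = proj x → F z = F x) (x : Eu n) : desc F hF hp (proj x) = F x := by
  have h1 : desc F hF hp (proj x) = F (lift (proj x)) := rfl
  rw [h1]
  exact hp _ _ (proj_lift (proj x))

end Pool.Agent.U920.NF
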