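import Pool.Agent.U920.NF.Global
import Pool.Agent.QTot.MC

/-!
# The integral of `Δ(|Ric|² - (3/10) R²)` is conformally invariant
-/

set_option autoImplicit false
open scoped ContDiff Manifold Topology Matrix
open MeasureTheory Filter Set

namespace Pool.Agent.U920.NF

open Pool.Agent.QTot

variable {n : ℕ} {X : ClosedManifold n}

/-- a Riemannian volume measure of a closed manifold is finite -/
theorem vol_finite (g : RMetric n X.M) {μ : Measure X.M} (hμ : g.IsVolume μ) : IsFiniteMeasure μ := by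
  obtain ⟨ν, hν, hfin⟩ := MC.exists_vol g
  obtain ⟨t, ht⟩ := (isCompact_univ (X := X.M)).elim_nhds_subcover
    (fun c => (chartAt (Eu n) c).source) (fun c _ => chart_source_mem_nhds (Eu n) c)
  refine ⟨?_⟩
  refine lt_of_le_of_lt (measure_mono ht.2) ?_
  refine lt_of_le_of_lt (measure_biUnion_finset_le _ _) ?_
  rw [ENNReal.sum_lt_top]
  intro c _
  have hc : chartAt (Eu n) c ∈ atlas (Eu n) X.M := chart_mem_atlas (Eu n) c
  rw [hμ _ hc _ subset_rfl (chartAt (Eu n) c).open_source.measurableSet,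
    ← hν _ hc _ subset_rfl (chartAt (Eu n) c).open_source.measurableSet]
  exact measure_lt_top ν _

theorem trace_form (A R : Mt n) : ∑ a, ∑ b, A a b * R a b = (Aᵀ * R).trace := by
  simp only [Matrix.trace, Matrix.diag, Matrix.mul_apply, Matrix.transpose_apply]
  exact Finset.sum_comm

theorem quad_form (A R : Mt n) : ∑ c, ∑ d, A c d * ∑ a, ∑ b, A a b * (R a c * R b d) =
    (Aᵀ * (Rᵀ * A * R)).trace := by
  rw [← trace_form]
  refine Finset.sum_congr rfl fun c _ => Finset.sum_congr rfl fun d _ => ?_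
  congr 1
  simp only [Matrix.mul_apply, Matrix.transpose_apply, Finset.sum_mul]
  rw [Finset.sum_comm]
  refine Finset.sum_congr rfl fun b _ => Finset.sum_congr rfl fun a _ => ?_
  ring

theorem trace_inv {J A R : Mt n} (hJ : IsUnit J.det) :
    (((J⁻¹ * A * (J⁻¹)ᵀ)ᵀ) * (Jᵀ * R * J)).trace = (Aᵀ * R).trace := by
  have h0 : J * J⁻¹ = 1 := Matrix.mul_nonsing_inv _ hJ
  have h1 : (J⁻¹)ᵀ * Jᵀ = 1 := by
    rw [← Matrix.transpose_mul, h0, Matrix.transpose_one]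
  have h2 : (J⁻¹ * A * (J⁻¹)ᵀ)ᵀ * (Jᵀ * R * J) = J⁻¹ * (Aᵀ * R * J) := by
    calc (J⁻¹ * A * (J⁻¹)ᵀ)ᵀ * (Jᵀ * R * J)
        = J⁻¹ * Aᵀ * ((J⁻¹)ᵀ * Jᵀ) * R * J := by
          simp only [Matrix.transpose_mul, Matrix.transpose_transpose, Matrix.mul_assoc]
      _ = J⁻¹ * (Aᵀ * R * J) := by
          rw [h1]
          simp only [Matrix.mul_one, Matrix.mul_assoc]
  rw [h2, Matrix.trace_mul_comm, Matrix.mul_assoc, h0, Matrix.mul_one]

theorem quad_inv {J A R : Mt n} (hJ : IsUnit J.det) :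
    (((J⁻¹ * A * (J⁻¹)ᵀ)ᵀ) * ((Jᵀ * R * J)ᵀ * (J⁻¹ * A * (J⁻¹)ᵀ) * (Jᵀ * R * J))).trace =
      (Aᵀ * (Rᵀ * A * R)).trace := by
  have h1 : J * J⁻¹ = 1 := Matrix.mul_nonsing_inv _ hJ
  have h2 : (J⁻¹)ᵀ * Jᵀ = 1 := by
    rw [← Matrix.transpose_mul, h1, Matrix.transpose_one]
  have h3 : (Jᵀ * R * J)ᵀ * (J⁻¹ * A * (J⁻¹)ᵀ) * (Jᵀ * R * J) = Jᵀ * (Rᵀ * A * R) * J := by
    calc (Jᵀ * R * J)ᵀ * (J⁻¹ * A * (J⁻¹)ᵀ) * (Jᵀ * R * J)
        = Jᵀ * Rᵀ * (J * J⁻¹) * A * ((J⁻¹)ᵀ * Jᵀ) * R * J := by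
          simp only [Matrix.transpose_mul, Matrix.transpose_transpose, Matrix.mul_assoc]
      _ = Jᵀ * (Rᵀ * A * R) * J := by
          rw [h1, h2]
          simp only [Matrix.mul_one, Matrix.mul_assoc]
  rw [h3]
  exact trace_inv hJ

theorem sig_pull {φ : Eu n → Eu n} {x₀ : Eu n} (hφ : ContDiffAt ℝ ∞ φ x₀)
    (hJ : (Jac φ x₀).det ≠ 0) {G : Eu n → Mt n}
    (hG : ∀ i j, ContDiffAt ℝ ∞ (fun x => G x i j) (φ x₀))
    (hs : ∀ᶠ x in 𝓝 (φ x₀), (G x).IsSymm) (hd : (G (φ x₀)).det ≠ 0) :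
    sig.at (pull φ G) x₀ = sig.at G (φ x₀) := by
  have hJu : IsUnit (Jac φ x₀).det := isUnit_iff_ne_zero.2 hJ
  have hs0 : (G (φ x₀)).IsSymm := hs.self_of_nhds
  have hsp : (pull φ G x₀).IsSymm := by
    unfold pull Matrix.IsSymm
    rw [Matrix.transpose_mul, Matrix.transpose_mul, Matrix.transpose_transpose, hs0.eq, Matrix.mul_assoc]
  have hdp : (pull φ G x₀).det ≠ 0 := by
    unfold pull
    rw [Matrix.det_mul, Matrix.det_mul, Matrix.det_transpose]
    exact mul_ne_zero (mul_ne_zero hJ hd) hJ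
  have hinv : (pull φ G x₀)⁻¹ = (Jac φ x₀)⁻¹ * (G (φ x₀))⁻¹ * ((Jac φ x₀)⁻¹)ᵀ := by
    unfold pull
    rw [Matrix.mul_inv_rev, Matrix.mul_inv_rev, Matrix.transpose_nonsing_inv, Matrix.mul_assoc]
  rw [at_sig, at_sig, at_normRic _ _ hsp hdp, at_scal _ _ hsp hdp, at_normRic _ _ hs0 hd,
    at_scal _ _ hs0 hd]
  rw [quad_form, quad_form, trace_form, trace_form]
  rw [hinv, N2.ric_pull hφ hJ hG hs hd, quad_inv hJu, trace_inv hJu]

theorem sval_sig_chart (g : RMetric n X.M) {e : OpenPartialHomeomorph X.M (Eu n)}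
    (he : e ∈ atlas (Eu n) X.M) {x : X.M} (hx : x ∈ e.source) :
    sval sig g x = sig.at (g.G e) (e x) := by
  set c := chartAt (Eu n) x with hcdef
  have hc : c ∈ atlas (Eu n) X.M := chart_mem_atlas (Eu n) x
  obtain ⟨hU, htr⟩ := chart_mem x hx
  rw [← hcdef] at hU htr
  have het : trn c e (c x) ∈ e.target := (MA.trn_mem hU).1.1
  unfold sval
  rw [← hcdef, at_congr (pull_ev g hc he hU)]
  rw [sig_pull ((MA.trn_smooth hc he).contDiffAt ((MA.cdom_open c e).mem_nhds hU)) (MA.jac_det hc he hU)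
    (fun i j => (g.smooth e he i j).contDiffAt (e.open_target.mem_nhds het)) ?_
    (g.posDef e he _ het).det_pos.ne', htr]
  filter_upwards [e.open_target.mem_nhds het] with z hz
  exact metric_symm g he hz

theorem sval_sig_smooth (g : RMetric n X.M) :
    ContMDiff 𝓘(ℝ, Eu n) 𝓘(ℝ, ℝ) ∞ (sval sig g) := by
  intro x
  set c := chartAt (Eu n) x with hcdef
  have hc : c ∈ atlas (Eu n) X.M := chart_mem_atlas (Eu n) x
  have hxc : x ∈ c.source := mem_chart_source (Eu n) x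
  have h1 : ContDiffOn ℝ ∞ (sig.at (g.G c)) c.target :=
    val_smooth c.open_target (g.smooth c hc) (fun y hy => (g.posDef c hc y hy).det_pos.ne') sig ![]
  have h2 : ContMDiffOn 𝓘(ℝ, Eu n) 𝓘(ℝ, Eu n) ∞ c c.source :=
    contMDiffOn_of_mem_maximalAtlas (IsManifold.subset_maximalAtlas hc)
  have h3 : ContMDiffOn 𝓘(ℝ, Eu n) 𝓘(ℝ, ℝ) ∞ (fun y => sig.at (g.G c) (c y)) c.source :=
    (contMDiffOn_iff_contDiffOn.2 h1).comp h2 fun y hy => c.map_source hy
  refine (h3.contMDiffAt (c.open_source.mem_nhds hxc)).congr_of_eventuallyEq ?_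
  filter_upwards [c.open_source.mem_nhds hxc] with y hy
  exact sval_sig_chart g hc hy

theorem sval_sEx (g : RMetric n X.M) (x : X.M) : sval sEx g x = lapM g (sval sig g) x := by
  have hc : chartAt (Eu n) x ∈ atlas (Eu n) X.M := chart_mem_atlas (Eu n) x
  have hxc : x ∈ (chartAt (Eu n) x).source := mem_chart_source (Eu n) x
  have hct : chartAt (Eu n) x x ∈ (chartAt (Eu n) x).target := (chartAt (Eu n) x).map_source hxc
  unfold lapM
  have h1 : sval sEx g x = Lap (g.G (chartAt (Eu n) x)) (sig.at (g.G (chartAt (Eu n) x)))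
      (chartAt (Eu n) x x) := at_lap sig _ _
  rw [h1]
  refine N4.lap_congr (EventuallyEq.refl _ _) ?_
  filter_upwards [(chartAt (Eu n) x).open_target.mem_nhds hct] with y hy
  rw [sval_sig_chart g hc ((chartAt (Eu n) x).map_target hy), (chartAt (Eu n) x).right_inv hy]

theorem int_sEx (g : RMetric n X.M) {μ : Measure X.M} (hμ : g.IsVolume μ) :
    ∫ x, sval sEx g x ∂μ = 0 := by
  have := vol_finite g hμ
  simp only [sval_sEx]
  exact int_lapM g (sval_sig_smooth g) hμ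

theorem confInv_sEx (n : ℕ) : ConfInvIntegral n sEx := by
  intro X g w μ μ' hμ hμ'
  rw [int_sEx g hμ, int_sEx (conf g w) hμ']

end Pool.Agent.U920.NF
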