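import Pool.Agent.U920.NF.TorInt
import Pool.Agent.U920.NF.Vol

/-!
# Integrals over the torus
-/

set_option autoImplicit false
open scoped ContDiff Manifold Topology Matrix
open MeasureTheory Filter Set

noncomputable section

namespace Pool.Agent.U920.NF

open Pool.Agent.QTot

variable {n : ℕ}

/-- the centre of the cube `(0, 2π)^n` -/
def ctr (n : ℕ) : Eu n := fun _ => Real.pi

theorem source_ctr : (cube (ctr n)).source = Set.pi univ fun _ : Fin n => Ioo 0 (2 * Real.pi) := by
  rw [cube_source]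
  ext x
  simp [ctr]

theorem lift_mem (p : Tor n) (i : Fin n) : lift p i ∈ Ico 0 (2 * Real.pi) := by
  have h1 := (AddCircle.equivIco (2 * Real.pi) 0 (p i)).2
  exact ⟨h1.1, h1.2.trans_eq (zero_add _)⟩

theorem compl_sub {q : Tor n} (hq : q ∉ (cube (ctr n)).target) {y : Eu n} (hy : proj y = q) :
    ∃ i, ∃ k : ℤ, y i = k • (2 * Real.pi) := by
  by_contra hcon
  push Not at hcon
  apply hq
  have h1 : lift q ∈ (cube (ctr n)).source := by
    rw [source_ctr]
    intro i _
    refine ⟨lt_of_le_of_ne (lift_mem q i).1 ?_, (lift_mem q i).2⟩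
    intro h0
    have h2 : ((lift q i : ℝ) : AddCircle (2 * Real.pi)) = q i := congrFun (proj_lift q) i
    rw [← h0, ← hy] at h2
    have h3 : ((y i : ℝ) : AddCircle (2 * Real.pi)) = 0 := by
      rw [AddCircle.coe_zero] at h2
      exact h2.symm
    obtain ⟨k, hk⟩ := (AddCircle.coe_eq_zero_iff (2 * Real.pi)).1 h3
    exact hcon i k hk.symm
  have h4 := (cube (ctr n)).map_source h1
  rwa [cube_apply, proj_lift] at h4

theorem null_compl (g : RMetric n (Tor n)) {μ : Measure (Tor n)} (hμ : g.IsVolume μ) :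
    μ ((cube (ctr n)).target)ᶜ = 0 := by
  obtain ⟨t, ht⟩ := (isCompact_univ (X := Tor n)).elim_nhds_subcover
    (fun c => (chartAt (Eu n) c).source) (fun c _ => chart_source_mem_nhds (Eu n) c)
  refine measure_mono_null (t := ⋃ c ∈ t, ((cube (ctr n)).target)ᶜ ∩ (chartAt (Eu n) c).source) ?_ ?_
  · intro q hq
    obtain ⟨c, hc, hqc⟩ := mem_iUnion₂.1 (ht.2 (mem_univ q))
    exact mem_iUnion₂.2 ⟨c, hc, hq, hqc⟩
  · refine (measure_biUnion_null_iff t.countable_toSet).2 ?_
    intro c _
    have hc : chartAt (Eu n) c ∈ atlas (Eu n) (Tor n) := chart_mem_atlas (Eu n) c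
    have hm : MeasurableSet (((cube (ctr n)).target)ᶜ ∩ (chartAt (Eu n) c).source) :=
      ((cube (ctr n)).open_target.measurableSet.compl).inter
        (chartAt (Eu n) c).open_source.measurableSet
    rw [hμ _ hc _ inter_subset_right hm]
    apply setLIntegral_measure_zero
    refine measure_mono_null (t := ⋃ i : Fin n, ⋃ k : ℤ, {y : Eu n | y i = k • (2 * Real.pi)}) ?_ ?_
    · rintro _ ⟨q, ⟨hq1, hq2⟩, rfl⟩
      have h1 : proj ((chartAt (Eu n) c) q) = q := by
        have := (chartAt (Eu n) c).left_inv hq2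
        exact this
      obtain ⟨i, k, hik⟩ := compl_sub hq1 h1
      exact mem_iUnion.2 ⟨i, mem_iUnion.2 ⟨k, hik⟩⟩
    · rw [measure_iUnion_null_iff]
      intro i
      rw [measure_iUnion_null_iff]
      intro k
      rw [volume_pi]
      exact Measure.pi_hyperplane _ i _

theorem int_tor (g : RMetric n (Tor n)) {μ : Measure (Tor n)} (hμ : g.IsVolume μ)
    {f : Tor n → ℝ} (hf : Continuous f) :
    ∫ x, f x ∂μ = ∫ y in (cube (ctr n)).source, f (proj y) *
      Real.sqrt (g.G (cube (ctr n)).symm y).det := by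
  have h1 : μ.restrict (cube (ctr n)).target = μ :=
    Measure.restrict_eq_self_of_ae_mem (by
      rw [ae_iff]
      exact null_compl g hμ)
  have h2 := MD.int_chart g hμ (mem_atlas (ctr n)) (A := (cube (ctr n)).target) subset_rfl
    (cube (ctr n)).open_target.measurableSet hf
  have h3 : ((cube (ctr n)).symm : Tor n → Eu n) '' (cube (ctr n)).target = (cube (ctr n)).source :=
    (cube (ctr n)).symm.image_source_eq_target
  rw [h3, h1] at h2
  exact h2

theorem int_conf (w : Cinf (TorX n)) {μ : Measure (TorX n).M} (hμ : (conf (flatM n) w).IsVolume μ)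
    {f : Tor n → ℝ} (hf : Continuous f) :
    ∫ x, f x ∂μ = ∫ y in (cube (ctr n)).source, f (proj y) * Real.exp (n * w (proj y)) := by
  refine (int_tor (conf (flatM n) w) hμ hf).trans ?_
  congr 1
  funext y
  have h1 : (conf (flatM n) w).G (cube (ctr n)).symm y = Real.exp (2 * w (proj y)) • (1 : Mt n) := rfl
  rw [h1, Matrix.det_smul, Matrix.det_one, mul_one, Fintype.card_fin, ← Real.exp_nat_mul]
  congr 1
  rw [show (n : ℝ) * (2 * w (proj y)) = n * w (proj y) + n * w (proj y) by ring, Real.exp_add,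
    Real.sqrt_mul_self (Real.exp_pos _).le]

theorem int_box (f : ℝ → ℝ) : ∫ y in (cube (ctr 6)).source, f (y 0) =
    (2 * Real.pi) ^ 5 * ∫ x in (0 : ℝ)..(2 * Real.pi), f x := by
  have hpi := Real.two_pi_pos
  rw [source_ctr, volume_pi, Measure.restrict_pi_pi]
  have h1 : ∀ y : Fin 6 → ℝ, f (y 0) = ∏ i, (Fin.cons f (fun _ _ => 1) : Fin 6 → ℝ → ℝ) i (y i) := by
    intro y
    rw [Fin.prod_univ_succ]
    simp
  simp only [h1]
  rw [integral_fintype_prod_eq_prod, Fin.prod_univ_succ]
  rw [intervalIntegral.integral_of_le hpi.le, integral_Ioc_eq_integral_Ioo]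
  simp only [Fin.cons_zero, Fin.cons_succ]
  simp [hpi.le]
  ring

end Pool.Agent.U920.NF
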