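import Pool.Agent.U920.NF.Global

/-!
# The flat torus `T^n = ℝ^n / (2 π ℤ)^n` as a closed manifold
-/

set_option autoImplicit false
open scoped ContDiff Manifold Topology Matrix
open MeasureTheory Filter Set

noncomputable section

namespace Pool.Agent.U920.NF

open Pool.Agent.QTot

instance factTwoPi : Fact (0 < 2 * Real.pi) := ⟨Real.two_pi_pos⟩

/-- the `n`-dimensional torus -/
def Tor (n : ℕ) : Type := Fin n → AddCircle (2 * Real.pi)

variable {n : ℕ}

instance : TopologicalSpace (Tor n) := inferInstanceAs (TopologicalSpace (Fin n → AddCircle (2 * Real.pi)))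
instance : CompactSpace (Tor n) := inferInstanceAs (CompactSpace (Fin n → AddCircle (2 * Real.pi)))
instance : T2Space (Tor n) := inferInstanceAs (T2Space (Fin n → AddCircle (2 * Real.pi)))
instance : MeasurableSpace (Tor n) := borel _
instance : BorelSpace (Tor n) := ⟨rfl⟩

/-- the projection `ℝ^n → T^n` -/
def proj (x : Eu n) : Tor n := fun i => ((x i : ℝ) : AddCircle (2 * Real.pi))

theorem continuous_proj : Continuous (proj : Eu n → Tor n) :=
  continuous_pi fun i => (AddCircle.continuous_mk' _).comp (continuous_apply i)

/-- The restriction of the projection to the open cube of side `2 π` centred at `a`. -/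
def cube (a : Eu n) : OpenPartialHomeomorph (Eu n) (Tor n) :=
  OpenPartialHomeomorph.pi fun i : Fin n =>
    AddCircle.openPartialHomeomorphCoe (2 * Real.pi) (a i - Real.pi)

/-- the lift of a point of `T^n` to `[0, 2π)^n` -/
def lift (p : Tor n) : Eu n := fun i => ((AddCircle.equivIco (2 * Real.pi) 0 (p i) : ℝ))

theorem proj_lift (p : Tor n) : proj (lift p) = p := by
  funext i
  exact (AddCircle.equivIco (2 * Real.pi) 0).symm_apply_apply (p i)

theorem cube_apply (a x : Eu n) : cube a x = proj x := rfl

theorem cube_source (a : Eu n) :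
    (cube a).source = {x | ∀ i, a i - Real.pi < x i ∧ x i < a i - Real.pi + 2 * Real.pi} := by
  ext x
  constructor
  · intro h i
    exact h i trivial
  · intro h i _
    exact h i

theorem mem_cube (a : Eu n) : a ∈ (cube a).source := by
  rw [cube_source]
  intro i
  have := Real.pi_pos
  constructor <;> linarith

instance : ChartedSpace (Eu n) (Tor n) where
  atlas := {e | ∃ a : Eu n, e = (cube a).symm}
  chartAt p := (cube (lift p)).symm
  mem_chart_source p := by
    have := (cube (lift p)).map_source (mem_cube (lift p))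
    rw [cube_apply, proj_lift] at this
    exact this
  chart_mem_atlas p := ⟨_, rfl⟩

theorem chartAt_Tor (p : Tor n) : chartAt (Eu n) p = (cube (lift p)).symm := rfl

theorem mem_atlas (a : Eu n) : (cube a).symm ∈ atlas (Eu n) (Tor n) := ⟨a, rfl⟩

/-- if `x`, `z` project to the same point then a translation by `z - x` does not change `proj` -/
theorem proj_add {x z : Eu n} (h : proj z = proj x) (y : Eu n) : proj (y + (z - x)) = proj y := by
  funext i
  have hi : ((z i : ℝ) : AddCircle (2 * Real.pi)) = ((x i : ℝ) : AddCircle (2 * Real.pi)) :=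
    congrFun h i
  change (((y + (z - x)) i : ℝ) : AddCircle (2 * Real.pi)) = ((y i : ℝ) : AddCircle (2 * Real.pi))
  have : (y + (z - x)) i = y i + (z i - x i) := rfl
  rw [this, AddCircle.coe_add, AddCircle.coe_sub, hi, sub_self, add_zero]

/-- Near a point `x` the chart composed with the projection is a translation. -/
theorem chart_comp_proj (a x : Eu n) (hx : proj x ∈ (cube a).target) :
    ∃ v : Eu n, (∀ y, proj (y + v) = proj y) ∧ ∀ᶠ y in 𝓝 x, (cube a).symm (proj y) = y + v := by
  set z : Eu n := (cube a).symm (proj x) with hz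
  have hzs : z ∈ (cube a).source := (cube a).map_target hx
  have hzx : proj z = proj x := by
    rw [← cube_apply a z]
    exact (cube a).right_inv hx
  refine ⟨z - x, proj_add hzx, ?_⟩
  have hcont : Continuous fun y : Eu n => y + (z - x) := continuous_id.add continuous_const
  have hmem : (fun y : Eu n => y + (z - x)) x ∈ (cube a).source := by
    have : x + (z - x) = z := by abel
    change x + (z - x) ∈ (cube a).source
    rw [this]
    exact hzs
  have hev : ∀ᶠ y in 𝓝 x, y + (z - x) ∈ (cube a).source :=
    hcont.continuousAt.preimage_mem_nhds ((cube a).open_source.mem_nhds hmem)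
  filter_upwards [hev] with y hy
  rw [← proj_add hzx y, ← cube_apply a]
  exact (cube a).left_inv hy

instance : IsManifold 𝓘(ℝ, Eu n) ∞ (Tor n) := by
  apply isManifold_of_contDiffOn
  rintro e e' ⟨a, rfl⟩ ⟨b, rfl⟩
  intro x hx
  have hx1 : x ∈ ((cube a).symm.symm ≫ₕ (cube b).symm).source := hx.1
  have hx2 : proj x ∈ (cube b).target := hx1.2
  obtain ⟨v, -, hv⟩ := chart_comp_proj b x hx2
  have h2 : ContDiffAt ℝ ∞ (fun y : Eu n => y + v) x := contDiffAt_id.add contDiffAt_const
  have h3 : ContDiffAt ℝ ∞ (fun y : Eu n => (cube b).symm (proj y)) x :=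
    h2.congr_of_eventuallyEq hv
  exact h3.contDiffWithinAt

/-- the flat metric of the torus -/
def flatT (n : ℕ) : RMetric n (Tor n) where
  G _ _ := 1
  smooth _ _ _ _ := contDiffOn_const
  posDef _ _ _ _ := Matrix.PosDef.one
  compat := by
    rintro e ⟨a, rfl⟩ e' ⟨b, rfl⟩ y hy hy'
    have hy2 : proj y ∈ (cube b).target := hy'
    obtain ⟨v, -, hv⟩ := chart_comp_proj b y hy2
    have h1 : HasFDerivAt (trn ((cube a).symm) ((cube b).symm)) (ContinuousLinearMap.id ℝ (Eu n)) y :=
      ((hasFDerivAt_id y).add_const v).congr_of_eventuallyEq hv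
    have h2 : Jac (trn ((cube a).symm) ((cube b).symm)) y = 1 := by
      ext i j
      unfold Jac pd
      rw [Matrix.of_apply]
      have h3 : HasFDerivAt (fun z => trn ((cube a).symm) ((cube b).symm) z i)
          ((ContinuousLinearMap.proj (R := ℝ) (φ := fun _ : Fin n => ℝ) i).comp
            (ContinuousLinearMap.id ℝ (Eu n))) y :=
        (ContinuousLinearMap.proj (R := ℝ) (φ := fun _ : Fin n => ℝ) i).hasFDerivAt.comp y h1
      rw [h3.fderiv]
      simp [Matrix.one_apply, Pi.single_apply]
    rw [h2]
    simp

/-- the torus as a closed manifold -/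
def TorX (n : ℕ) : ClosedManifold n where
  M := Tor n

/-- the flat metric of the torus -/
def flatM (n : ℕ) : RMetric n (TorX n).M := flatT n

end Pool.Agent.U920.NF
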